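import Pool.Agent.W620.KT.Basic

open Set Topology

namespace Pool.Agent.W620.KT

universe u v w

variable {V : Type u} {E : Type v}

open Classical in
/-- the point of a vertex -/
noncomputable def evert (v : V) : V ⊕ (E × Bool) → ℝ := fun x => if x = Sum.inl v then 1 else 0

open Classical in
/-- the point of an edge -/
noncomputable def eedge (G : MGraph V E) (e : E) (t : ℝ) : V ⊕ (E × Bool) → ℝ
  | Sum.inl v => (if v = G.fst e then 1 - t else 0) + (if v = G.snd e then t else 0)
  | Sum.inr (e', false) => if e' = e then t * (1 - t) else 0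
  | Sum.inr (e', true) => if e' = e then t * (t * (1 - t)) else 0

lemma eedge_cont (G : MGraph V E) (e : E) : Continuous (eedge G e) := by
  classical
  refine continuous_pi fun x => ?_
  rcases x with v | ⟨e', _ | _⟩
  · simp only [eedge]
    split_ifs <;> fun_prop
  · simp only [eedge]
    split_ifs <;> fun_prop
  · simp only [eedge]
    split_ifs <;> fun_prop

lemma eedge_zero (G : MGraph V E) (e : E) : eedge G e 0 = evert (G.fst e) := by
  classical
  funext x
  rcases x with v | ⟨e', _ | _⟩ <;> simp [eedge, evert]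

lemma eedge_one (G : MGraph V E) (e : E) : eedge G e 1 = evert (G.snd e) := by
  classical
  funext x
  rcases x with v | ⟨e', _ | _⟩ <;> simp [eedge, evert]

/-- the points of the realisation -/
def epts (G : MGraph V E) : Set (V ⊕ (E × Bool) → ℝ) :=
  {p | (∃ v, evert v = p) ∨ ∃ e, ∃ t ∈ Icc (0 : ℝ) 1, eedge G e t = p}

/-- every multigraph has a Hausdorff realisation -/
theorem exists_gspace (G : MGraph V E) : ∃ (X : Type (max u v)) (_ : TopologicalSpace X),
    T2Space X ∧ Nonempty (GSpace G X) := by
  classical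
  have hmem : ∀ e, ∀ t ∈ Icc (0 : ℝ) 1, eedge G e t ∈ epts G := fun e t ht => Or.inr ⟨e, t, ht, rfl⟩
  have hpos : ∀ t ∈ Ioo (0 : ℝ) 1, t * (1 - t) ≠ 0 := by
    intro t ht
    exact (mul_pos ht.1 (by linarith [ht.2])).ne'
  refine ⟨epts G, inferInstance, inferInstance, ⟨?_⟩⟩
  refine
    { vert := fun v => ⟨evert v, Or.inl ⟨v, rfl⟩⟩
      edge := fun e t => if ht : t ∈ Icc (0 : ℝ) 1 then ⟨eedge G e t, hmem e t ht⟩
        else ⟨evert (G.fst e), Or.inl ⟨_, rfl⟩⟩
      cont := ?_
      vert_inj := ?_
      edge_zero := ?_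
      edge_one := ?_
      edge_inj := ?_
      edge_ne := ?_
      cover := ?_ }
  · intro e
    rw [continuousOn_iff_continuous_domRestrict]
    have : (Icc (0 : ℝ) 1).domRestrict (fun t => if ht : t ∈ Icc (0 : ℝ) 1 then
        (⟨eedge G e t, hmem e t ht⟩ : epts G) else ⟨evert (G.fst e), Or.inl ⟨_, rfl⟩⟩) =
        fun t => ⟨eedge G e t.1, hmem e t.1 t.2⟩ := by
      funext t
      simp only [Set.domRestrict_apply, dif_pos t.2]
    rw [this]
    exact ((eedge_cont G e).comp continuous_subtype_val).subtype_mk _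
  · intro v v' h
    have := congrFun (congrArg Subtype.val h) (Sum.inl v)
    simp only [evert, if_true] at this
    by_contra hne
    rw [if_neg] at this
    · norm_num at this
    · intro h'
      exact hne (Sum.inl_injective h')
  · intro e
    rw [dif_pos (left_mem_Icc.2 zero_le_one)]
    exact Subtype.ext (eedge_zero G e)
  · intro e
    rw [dif_pos (right_mem_Icc.2 zero_le_one)]
    exact Subtype.ext (eedge_one G e)
  · intro e e' s t hs ht h
    rw [dif_pos (Ioo_subset_Icc_self hs), dif_pos (Ioo_subset_Icc_self ht)] at h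
    have h0 := congrArg Subtype.val h
    simp only at h0
    have h1 := congrFun h0 (Sum.inr (e, false))
    have h2 := congrFun h0 (Sum.inr (e, true))
    simp only [eedge, if_true] at h1 h2
    have he : e = e' := by
      by_contra hne
      rw [if_neg hne] at h1
      exact hpos s hs h1
    subst he
    simp only [if_true] at h1 h2
    rw [← h1] at h2
    exact ⟨rfl, mul_right_cancel₀ (hpos s hs) h2⟩
  · intro e s v hs h
    rw [dif_pos (Ioo_subset_Icc_self hs)] at h
    have h1 := congrFun (congrArg Subtype.val h) (Sum.inr (e, false))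
    simp only [eedge, evert, if_true, reduceCtorEq, if_false] at h1
    exact hpos s hs h1
  · rintro ⟨p, ⟨v, rfl⟩ | ⟨e, t, ht, rfl⟩⟩
    · exact Or.inl ⟨v, rfl⟩
    · rcases Icc_cases ht with rfl | rfl | ht'
      · exact Or.inl ⟨G.fst e, Subtype.ext (eedge_zero G e).symm⟩
      · exact Or.inl ⟨G.snd e, Subtype.ext (eedge_one G e).symm⟩
      · refine Or.inr ⟨e, t, ht', ?_⟩
        rw [dif_pos ht]

end Pool.Agent.W620.KT
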