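import Pool.Agent.W620.KT.Basic

open Set Topology

namespace Pool.Agent.W620.KT

universe u v w x

variable {V : Type u} {E : Type v} {G : MGraph V E}

/-- the identity of the multigraph gives a continuous map between two realisations -/
theorem exists_map {X : Type w} [TopologicalSpace X] {Y : Type x} [TopologicalSpace Y]
    [T2Space X] [Finite V] [Finite E] (R : GSpace G X) (S : GSpace G Y) :
    ∃ f : X → Y, Continuous f ∧ (∀ v, f (R.vert v) = S.vert v) ∧
      ∀ e, ∀ s ∈ Ioo (0 : ℝ) 1, f (R.edge e s) = S.edge e s := by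
  classical
  have hex : ∀ x, ∃ y, (∀ v, R.vert v = x → y = S.vert v) ∧
      (∀ ε, ∀ s ∈ Ioo (0 : ℝ) 1, R.edge ε s = x → y = S.edge ε s) := by
    intro x
    rcases R.cover x with ⟨v, rfl⟩ | ⟨ε, s, hs, rfl⟩
    · refine ⟨S.vert v, ?_, ?_⟩
      · intro v' hv'
        rw [R.vert_inj hv']
      · intro ε s hs h
        exact absurd h (R.edge_ne ε s v hs)
    · refine ⟨S.edge ε s, ?_, ?_⟩
      · intro v hv
        exact absurd hv.symm (R.edge_ne ε s v hs)
      · intro ε' s' hs' h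
        obtain ⟨rfl, rfl⟩ := R.edge_inj _ _ _ _ hs' hs h
        rfl
  choose f hfv hfe using hex
  have hfv' : ∀ v, f (R.vert v) = S.vert v := fun v => hfv _ v rfl
  have hfe' : ∀ ε, ∀ s ∈ Ioo (0 : ℝ) 1, f (R.edge ε s) = S.edge ε s :=
    fun ε s hs => hfe _ ε s hs rfl
  have hfI : ∀ ε, ∀ s ∈ Icc (0 : ℝ) 1, f (R.edge ε s) = S.edge ε s := by
    intro ε s hs
    rcases Icc_cases hs with h | h | h
    · rw [h, R.edge_zero, hfv', S.edge_zero]
    · rw [h, R.edge_one, hfv', S.edge_one]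
    · exact hfe' ε s h
  exact ⟨f, R.continuous_of f fun ε => (S.cont ε).congr (hfI ε), hfv', hfe'⟩

/-- a Hausdorff realisation is unique up to homeomorphism -/
theorem gspace_unique {X : Type w} [TopologicalSpace X] {Y : Type x} [TopologicalSpace Y]
    [T2Space X] [T2Space Y] [Finite V] [Finite E] (R : GSpace G X) (S : GSpace G Y) :
    Nonempty (X ≃ₜ Y) := by
  obtain ⟨f, hf, hfv, hfe⟩ := exists_map R S
  obtain ⟨g, hg, hgv, hge⟩ := exists_map S R
  refine ⟨⟨⟨f, g, ?_, ?_⟩, hf, hg⟩⟩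
  · intro x
    rcases R.cover x with ⟨v, rfl⟩ | ⟨ε, s, hs, rfl⟩
    · rw [hfv, hgv]
    · rw [hfe _ _ hs, hge _ _ hs]
  · intro y
    rcases S.cover y with ⟨v, rfl⟩ | ⟨ε, s, hs, rfl⟩
    · rw [hgv, hfv]
    · rw [hge _ _ hs, hfe _ _ hs]

end Pool.Agent.W620.KT
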