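import Pool.Agent.W620.KT.Zig

open Set Topology Filter

namespace Pool.Agent.W620.KT

/-- the germ of an arc at `0`: continuous on `[0,1]`, it takes every value of `(0,1)` exactly
`2d+1` times and the value `1` exactly `d+1` times -/
noncomputable def germ (d : ℕ) (s : ℝ) : ℝ := if s ≤ 0 then 0 else 1 / (1 + path d (1 / s - 1))

lemma germ_zero (d : ℕ) : germ d 0 = 0 := by simp [germ]

lemma germ_pos_eq (d : ℕ) {s : ℝ} (hs : 0 < s) : germ d s = 1 / (1 + path d (1 / s - 1)) := by
  unfold germ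
  rw [if_neg (not_le.2 hs)]

lemma one_div_sub_nonneg {s : ℝ} (hs : s ∈ Ioc (0 : ℝ) 1) : 0 ≤ 1 / s - 1 := by
  rw [sub_nonneg, le_div_iff₀ hs.1]
  linarith [hs.2]

lemma germ_one (d : ℕ) : germ d 1 = 1 := by
  rw [germ_pos_eq d one_pos]
  have h : path d (1 / 1 - 1) = 0 := by
    have := path_eq d 0 (x := (1 / 1 - 1 : ℝ)) (by norm_num) (by norm_num)
    rw [this]
    simp [wk]
  rw [h]
  norm_num

lemma germ_mem (d : ℕ) {s : ℝ} (hs : s ∈ Ioc (0 : ℝ) 1) : germ d s ∈ Ioc (0 : ℝ) 1 := by
  rw [germ_pos_eq d hs.1]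
  have h := path_nonneg d (one_div_sub_nonneg hs)
  constructor
  · positivity
  · rw [div_le_one (by linarith)]
    linarith

lemma germ_count_aux (d : ℕ) {t : ℝ} (_ht : t ∈ Ioc (0 : ℝ) 1) :
    {s : ℝ | s ∈ Ioc (0 : ℝ) 1 ∧ germ d s = t}.ncard =
      {x : ℝ | 0 ≤ x ∧ path d x = 1 / t - 1}.ncard := by
  have h : {s : ℝ | s ∈ Ioc (0 : ℝ) 1 ∧ germ d s = t} =
      (fun x : ℝ => 1 / (1 + x)) '' {x : ℝ | 0 ≤ x ∧ path d x = 1 / t - 1} := by
    ext s
    simp only [mem_ofPred_eq, mem_image]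
    constructor
    · rintro ⟨hs, hst⟩
      have hn := one_div_sub_nonneg hs
      refine ⟨1 / s - 1, ⟨hn, ?_⟩, ?_⟩
      · rw [germ_pos_eq d hs.1] at hst
        have h1 := path_nonneg d hn
        rw [← hst]
        field_simp
        ring
      · have := hs.1
        field_simp
        ring
    · rintro ⟨x, ⟨hx, hxt⟩, rfl⟩
      have h1 : (0 : ℝ) < 1 / (1 + x) := by positivity
      refine ⟨⟨h1, ?_⟩, ?_⟩
      · rw [div_le_one (by linarith)]
        linarith
      · rw [germ_pos_eq d h1]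
        have h2 : 1 / (1 / (1 + x)) - 1 = x := by
          rw [one_div_one_div]
          ring
        rw [h2, hxt]
        rw [add_sub_cancel, one_div_one_div]
  rw [h, InjOn.ncard_image]
  intro x hx y hy hxy
  simp only [mem_ofPred_eq] at hx hy
  simp only at hxy
  have h1 : (1 + x) = (1 + y) := by
    have := congrArg (fun z : ℝ => 1 / z) hxy
    simpa using this
  linarith

lemma germ_count_one (d : ℕ) : {s : ℝ | s ∈ Ioc (0 : ℝ) 1 ∧ germ d s = 1}.ncard = d + 1 := by
  rw [germ_count_aux d ⟨one_pos, le_refl _⟩]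
  have : (1 : ℝ) / 1 - 1 = 0 := by norm_num
  rw [this, path_count_zero]

lemma germ_count (d : ℕ) {t : ℝ} (ht : t ∈ Ioo (0 : ℝ) 1) :
    {s : ℝ | s ∈ Ioc (0 : ℝ) 1 ∧ germ d s = t}.ncard = 2 * d + 1 := by
  rw [germ_count_aux d ⟨ht.1, ht.2.le⟩, path_count_pos]
  rw [sub_pos, lt_div_iff₀ ht.1]
  linarith [ht.2]

lemma germ_contOn (d : ℕ) : ContinuousOn (germ d) (Icc 0 1) := by
  intro s hs
  rcases eq_or_lt_of_le hs.1 with h | h
  · subst h
    have h1 : Tendsto (germ d) (𝓝[>] 0) (𝓝 0) := by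
      have h2 : Tendsto (fun s : ℝ => 1 / (1 + path d (1 / s - 1))) (𝓝[>] 0) (𝓝 0) := by
        have h3 : Tendsto (fun s : ℝ => 1 / s - 1) (𝓝[>] 0) atTop := by
          have := tendsto_inv_nhdsGT_zero (𝕜 := ℝ)
          simp only [one_div]
          exact tendsto_atTop_add_const_right _ _ this
        have h4 : Tendsto (fun s : ℝ => 1 + path d (1 / s - 1)) (𝓝[>] 0) atTop :=
          tendsto_atTop_add_const_left _ _ ((path_tendsto d).comp h3)
        simp only [one_div]
        simp only [one_div] at h4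
        exact tendsto_inv_atTop_zero.comp h4
      refine h2.congr' ?_
      filter_upwards [self_mem_nhdsWithin] with s hs
      exact (germ_pos_eq d hs).symm
    have h5 : ContinuousWithinAt (germ d) (Ici 0) 0 := by
      rw [← continuousWithinAt_Ioi_iff_Ici]
      unfold ContinuousWithinAt
      rw [germ_zero]
      exact h1
    exact h5.mono Icc_subset_Ici_self
  · have h1 : ContinuousWithinAt (fun s : ℝ => 1 / (1 + path d (1 / s - 1))) (Ioc 0 1) s := by
      have h2 : ContinuousOn (fun s : ℝ => 1 / s - 1) (Ioc 0 1) := by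
        refine ContinuousOn.sub (continuousOn_const.div continuousOn_id ?_) continuousOn_const
        intro x hx
        exact ne_of_gt hx.1
      have h3 : ContinuousOn (fun s : ℝ => path d (1 / s - 1)) (Ioc 0 1) :=
        (path_contOn d).comp h2 (fun x hx => one_div_sub_nonneg hx)
      have h4 : ContinuousOn (fun s : ℝ => 1 / (1 + path d (1 / s - 1))) (Ioc 0 1) := by
        refine continuousOn_const.div (continuousOn_const.add h3) ?_
        intro x hx
        have := path_nonneg d (one_div_sub_nonneg hx)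
        linarith
      exact h4 s ⟨h, hs.2⟩
    have h2 : ContinuousWithinAt (germ d) (Ioc 0 1) s := by
      refine h1.congr (fun x hx => germ_pos_eq d hx.1) (germ_pos_eq d h)
    refine h2.mono_of_mem_nhdsWithin ?_
    rw [mem_nhdsWithin]
    exact ⟨Ioi 0, isOpen_Ioi, h, fun y hy => ⟨hy.1, hy.2.2⟩⟩

/-- reflection -/
def side (b : Bool) (x : ℝ) : ℝ := if b then 1 - x else x

@[simp] lemma side_side (b : Bool) (x : ℝ) : side b (side b x) = x := by
  unfold side
  split_ifs <;> ring

lemma side_half (b : Bool) : side b (1 / 2) = 1 / 2 := by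
  unfold side
  split_ifs <;> norm_num

lemma side_cont (b : Bool) : Continuous (side b) := by
  unfold side
  split_ifs <;> fun_prop

lemma side_mem {b : Bool} {x : ℝ} (hx : x ∈ Ioo (0 : ℝ) 1) : side b x ∈ Ioo (0 : ℝ) 1 := by
  unfold side
  split_ifs
  · exact ⟨by linarith [hx.2], by linarith [hx.1]⟩
  · exact hx

/-- the end of type `b` -/
def endv (b : Bool) : ℝ := if b then 1 else 0

lemma side_zero (b : Bool) : side b 0 = endv b := by
  unfold side endv
  split_ifs <;> norm_num

/-- the number of preimages in a half arc -/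
noncomputable def hc (b : Bool) (d : ℕ) (t : ℝ) : ℕ :=
  if t = 1 / 2 then d + 1 else if side b t < 1 / 2 then 2 * d + 1 else 0

lemma half_count (b : Bool) (d : ℕ) {t : ℝ} (ht : t ∈ Ioo (0 : ℝ) 1) :
    {s : ℝ | s ∈ Ioc (0 : ℝ) (1 / 2) ∧ side b (germ d (2 * s) / 2) = t}.ncard = hc b d t := by
  have h : {s : ℝ | s ∈ Ioc (0 : ℝ) (1 / 2) ∧ side b (germ d (2 * s) / 2) = t} =
      (fun u : ℝ => u / 2) '' {u : ℝ | u ∈ Ioc (0 : ℝ) 1 ∧ germ d u = 2 * side b t} := by
    ext s
    simp only [mem_ofPred_eq, mem_image]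
    constructor
    · rintro ⟨hs, hst⟩
      refine ⟨2 * s, ⟨⟨by linarith [hs.1], by linarith [hs.2]⟩, ?_⟩, by ring⟩
      rw [← hst, side_side]
      ring
    · rintro ⟨u, ⟨hu, hut⟩, rfl⟩
      refine ⟨⟨by linarith [hu.1], by linarith [hu.2]⟩, ?_⟩
      have : 2 * (u / 2) = u := by ring
      rw [this, hut]
      have : 2 * side b t / 2 = side b t := by ring
      rw [this, side_side]
  rw [h, ncard_image_of_injective _ (fun x y hxy => by simpa using hxy)]
  have hst := side_mem (b := b) ht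
  unfold hc
  split_ifs with h1 h2
  · rw [h1, side_half]
    have : (2 : ℝ) * (1 / 2) = 1 := by norm_num
    rw [this, germ_count_one]
  · rw [germ_count]
    exact ⟨by linarith [hst.1], by linarith⟩
  · have h3 : 1 / 2 < side b t := by
      refine lt_of_le_of_ne (not_lt.1 h2) ?_
      intro h4
      apply h1
      rw [← side_side b t, ← h4, side_half]
    have h4 : {u : ℝ | u ∈ Ioc (0 : ℝ) 1 ∧ germ d u = 2 * side b t} = ∅ := by
      rw [eq_empty_iff_forall_notMem]
      rintro u ⟨hu, hu'⟩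
      have := (germ_mem d hu).2
      linarith
    rw [h4, ncard_empty]

/-- the arcs -/
noncomputable def arc (a b : Bool) (m n : ℕ) (s : ℝ) : ℝ :=
  if s ≤ 1 / 2 then side a (germ m (2 * s) / 2) else side b (germ n (2 - 2 * s) / 2)

lemma arc_left (a b : Bool) (m n : ℕ) {s : ℝ} (hs : s ≤ 1 / 2) :
    arc a b m n s = side a (germ m (2 * s) / 2) := by
  unfold arc
  rw [if_pos hs]

lemma arc_right (a b : Bool) (m n : ℕ) {s : ℝ} (hs : 1 / 2 ≤ s) :
    arc a b m n s = side b (germ n (2 - 2 * s) / 2) := by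
  rcases eq_or_lt_of_le hs with h | h
  · subst h
    rw [arc_left _ _ _ _ (le_refl _)]
    have h1 : (2 : ℝ) * (1 / 2) = 1 := by norm_num
    have h2 : (2 : ℝ) - 2 * (1 / 2) = 1 := by norm_num
    rw [h2, h1, germ_one, germ_one, side_half, side_half]
  · unfold arc
    rw [if_neg (not_le.2 h)]

lemma arc_zero (a b : Bool) (m n : ℕ) : arc a b m n 0 = endv a := by
  rw [arc_left _ _ _ _ (by norm_num), mul_zero, germ_zero, zero_div, side_zero]

lemma arc_one (a b : Bool) (m n : ℕ) : arc a b m n 1 = endv b := by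
  rw [arc_right _ _ _ _ (by norm_num)]
  have : (2 : ℝ) - 2 * 1 = 0 := by norm_num
  rw [this, germ_zero, zero_div, side_zero]

lemma germ_half_mem (b : Bool) (d : ℕ) {u : ℝ} (hu : u ∈ Ioc (0 : ℝ) 1) :
    side b (germ d u / 2) ∈ Ioo (0 : ℝ) 1 := by
  have := germ_mem d hu
  exact side_mem ⟨by linarith [this.1], by linarith [this.2]⟩

lemma arc_mem (a b : Bool) (m n : ℕ) {s : ℝ} (hs : s ∈ Ioo (0 : ℝ) 1) :
    arc a b m n s ∈ Ioo (0 : ℝ) 1 := by
  rcases le_total s (1 / 2) with h | h
  · rw [arc_left _ _ _ _ h]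
    exact germ_half_mem _ _ ⟨by linarith [hs.1], by linarith⟩
  · rw [arc_right _ _ _ _ h]
    exact germ_half_mem _ _ ⟨by linarith [hs.2], by linarith⟩

lemma arc_contOn (a b : Bool) (m n : ℕ) : ContinuousOn (arc a b m n) (Icc 0 1) := by
  have h : Icc (0 : ℝ) 1 = Icc 0 (1 / 2) ∪ Icc (1 / 2) 1 := by
    rw [Icc_union_Icc_eq_Icc (by norm_num) (by norm_num)]
  rw [h]
  refine ContinuousOn.union_of_isClosed ?_ ?_ isClosed_Icc isClosed_Icc
  · refine ContinuousOn.congr (f := fun s => side a (germ m (2 * s) / 2)) ?_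
      (fun s hs => arc_left _ _ _ _ hs.2)
    refine (side_cont a).comp_continuousOn (ContinuousOn.div_const ?_ _)
    refine (germ_contOn m).comp (by fun_prop) ?_
    intro s hs
    exact ⟨by linarith [hs.1], by linarith [hs.2]⟩
  · refine ContinuousOn.congr (f := fun s => side b (germ n (2 - 2 * s) / 2)) ?_
      (fun s hs => arc_right _ _ _ _ hs.1)
    refine (side_cont b).comp_continuousOn (ContinuousOn.div_const ?_ _)
    refine (germ_contOn n).comp (by fun_prop) ?_
    intro s hs
    exact ⟨by linarith [hs.2], by linarith [hs.1]⟩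

lemma hc_pos_fin (b : Bool) (d : ℕ) {t : ℝ} (ht : t ∈ Ioo (0 : ℝ) 1) :
    {s : ℝ | s ∈ Ioc (0 : ℝ) (1 / 2) ∧ side b (germ d (2 * s) / 2) = t}.Finite := by
  by_cases h : hc b d t = 0
  · unfold hc at h
    have h1 : t ≠ 1 / 2 := by
      intro h1
      rw [if_pos h1] at h
      omega
    rw [if_neg h1] at h
    have h2 : ¬ side b t < 1 / 2 := by
      intro h2
      rw [if_pos h2] at h
      omega
    have h3 : 1 / 2 < side b t := by
      refine lt_of_le_of_ne (not_lt.1 h2) ?_
      intro h4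
      apply h1
      rw [← side_side b t, ← h4, side_half]
    have h4 : {s : ℝ | s ∈ Ioc (0 : ℝ) (1 / 2) ∧ side b (germ d (2 * s) / 2) = t} = ∅ := by
      rw [eq_empty_iff_forall_notMem]
      rintro u ⟨hu, hu'⟩
      have := (germ_mem d (s := 2 * u) ⟨by linarith [hu.1], by linarith [hu.2]⟩).2
      rw [← hu', side_side] at h3
      linarith
    rw [h4]
    exact finite_empty
  · refine finite_of_ncard_ne_zero ?_
    rw [half_count b d ht]
    exact h

lemma arc_count (a b : Bool) (m n : ℕ) {t : ℝ} (ht : t ∈ Ioo (0 : ℝ) 1) :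
    {s : ℝ | s ∈ Ioo (0 : ℝ) 1 ∧ arc a b m n s = t}.ncard + (if t = 1 / 2 then 1 else 0) =
      hc a m t + hc b n t := by
  classical
  have hL := half_count a m ht
  have hR := half_count b n ht
  set L := {s : ℝ | s ∈ Ioc (0 : ℝ) (1 / 2) ∧ side a (germ m (2 * s) / 2) = t} with hLd
  set R := {s : ℝ | s ∈ Ioc (0 : ℝ) (1 / 2) ∧ side b (germ n (2 * s) / 2) = t} with hRd
  have hLf : L.Finite := hc_pos_fin a m ht
  have hRf : R.Finite := hc_pos_fin b n ht
  have hR' : ((fun s : ℝ => 1 - s) '' R).ncard = hc b n t := by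
    rw [ncard_image_of_injective _ (fun x y hxy => by simpa using hxy), hR]
  have hR'f : ((fun s : ℝ => 1 - s) '' R).Finite := hRf.image _
  have hU : {s : ℝ | s ∈ Ioo (0 : ℝ) 1 ∧ arc a b m n s = t} = L ∪ (fun s : ℝ => 1 - s) '' R := by
    ext s
    simp only [mem_ofPred_eq, mem_union, mem_image, hLd, hRd]
    constructor
    · rintro ⟨hs, hst⟩
      rcases le_total s (1 / 2) with h | h
      · left
        rw [arc_left _ _ _ _ h] at hst
        exact ⟨⟨hs.1, h⟩, hst⟩
      · right
        rw [arc_right _ _ _ _ h] at hst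
        refine ⟨1 - s, ⟨⟨by linarith [hs.2], by linarith⟩, ?_⟩, by ring⟩
        rw [← hst]
        congr 3
        ring
    · rintro (⟨hs, hst⟩ | ⟨u, ⟨hu, hut⟩, rfl⟩)
      · refine ⟨⟨hs.1, by linarith [hs.2]⟩, ?_⟩
        rw [arc_left _ _ _ _ hs.2]
        exact hst
      · refine ⟨⟨by linarith [hu.2], by linarith [hu.1]⟩, ?_⟩
        rw [arc_right _ _ _ _ (by linarith [hu.2]), ← hut]
        congr 3
        ring
  have hI : (L ∩ (fun s : ℝ => 1 - s) '' R).ncard = if t = 1 / 2 then 1 else 0 := by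
    split_ifs with h
    · have : L ∩ (fun s : ℝ => 1 - s) '' R = {1 / 2} := by
        ext s
        simp only [mem_inter_iff, mem_image, mem_singleton_iff, hLd, hRd, mem_ofPred_eq]
        constructor
        · rintro ⟨⟨hs, _⟩, u, ⟨hu, _⟩, rfl⟩
          linarith [hs.2, hu.2]
        · rintro rfl
          refine ⟨⟨⟨by norm_num, le_refl _⟩, ?_⟩, 1 / 2, ⟨⟨by norm_num, le_refl _⟩, ?_⟩, by norm_num⟩
          · have h1 : (2 : ℝ) * (1 / 2) = 1 := by norm_num
            rw [h1, germ_one, side_half, h]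
          · have h1 : (2 : ℝ) * (1 / 2) = 1 := by norm_num
            rw [h1, germ_one, side_half, h]
      rw [this, ncard_singleton]
    · have : L ∩ (fun s : ℝ => 1 - s) '' R = ∅ := by
        rw [eq_empty_iff_forall_notMem]
        rintro s ⟨⟨hs, hst⟩, u, ⟨hu, _⟩, hus⟩
        simp only at hus
        apply h
        have h1 : s = 1 / 2 := by linarith [hs.2, hu.2]
        rw [← hst, h1]
        have h1 : (2 : ℝ) * (1 / 2) = 1 := by norm_num
        rw [h1, germ_one, side_half]
      rw [this, ncard_empty]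
  have := ncard_union_add_ncard_inter L ((fun s : ℝ => 1 - s) '' R) hLf hR'f
  rw [← hU, hI, hL, hR'] at this
  exact this

end Pool.Agent.W620.KT
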