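import Mathlib

open Set Topology

namespace Pool.Agent.W620.KT

universe u v w x y z

/-- A multigraph with vertex set `V` and edge set `E`: every edge has a first and a second end. -/
structure MGraph (V : Type u) (E : Type v) where
  /-- the first end -/
  fst : E → V
  /-- the second end -/
  snd : E → V

/-- A structure of topological graph on the space `X`, with underlying multigraph `G`. -/
structure GSpace {V : Type u} {E : Type v} (G : MGraph V E) (X : Type w) [TopologicalSpace X] where
  /-- the vertices -/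
  vert : V → X
  /-- the edges, parametrised by `[0,1]` -/
  edge : E → ℝ → X
  cont : ∀ e, ContinuousOn (edge e) (Icc 0 1)
  vert_inj : Function.Injective vert
  edge_zero : ∀ e, edge e 0 = vert (G.fst e)
  edge_one : ∀ e, edge e 1 = vert (G.snd e)
  edge_inj : ∀ e e' s t, s ∈ Ioo (0 : ℝ) 1 → t ∈ Ioo (0 : ℝ) 1 → edge e s = edge e' t →
    e = e' ∧ s = t
  edge_ne : ∀ e s v, s ∈ Ioo (0 : ℝ) 1 → edge e s ≠ vert v
  cover : ∀ x, (∃ v, vert v = x) ∨ ∃ e, ∃ s ∈ Ioo (0 : ℝ) 1, edge e s = x

variable {V : Type u} {E : Type v} {G : MGraph V E} {X : Type w} [TopologicalSpace X]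

lemma Icc_cases {s : ℝ} (hs : s ∈ Icc (0 : ℝ) 1) : s = 0 ∨ s = 1 ∨ s ∈ Ioo (0 : ℝ) 1 := by
  rcases eq_or_lt_of_le hs.1 with h | h
  · exact Or.inl h.symm
  · rcases eq_or_lt_of_le hs.2 with h' | h'
    · exact Or.inr (Or.inl h')
    · exact Or.inr (Or.inr ⟨h, h'⟩)

namespace GSpace

variable (R : GSpace G X)

/-- gluing: a map is continuous as soon as it is continuous along every edge -/
theorem continuous_of [T2Space X] [Finite V] [Finite E] {Z : Type x} [TopologicalSpace Z]
    (f : X → Z) (hf : ∀ e, ContinuousOn (fun s => f (R.edge e s)) (Icc 0 1)) : Continuous f := by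
  rw [continuous_iff_isClosed]
  intro C hC
  have h1 : f ⁻¹' C = (R.vert '' {v | f (R.vert v) ∈ C}) ∪
      ⋃ e, R.edge e '' (Icc 0 1 ∩ (fun s => f (R.edge e s)) ⁻¹' C) := by
    ext x
    simp only [mem_preimage, mem_union, mem_image, mem_ofPred_eq, mem_iUnion, mem_inter_iff]
    constructor
    · intro hx
      rcases R.cover x with ⟨v, rfl⟩ | ⟨e, s, hs, rfl⟩
      · exact Or.inl ⟨v, hx, rfl⟩
      · exact Or.inr ⟨e, s, ⟨Ioo_subset_Icc_self hs, hx⟩, rfl⟩
    · rintro (⟨v, hv, rfl⟩ | ⟨e, s, ⟨_, hs⟩, rfl⟩)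
      · exact hv
      · exact hs
  rw [h1]
  refine IsClosed.union ((Set.toFinite _).isClosed) ?_
  refine isClosed_iUnion_of_finite fun e => ?_
  have h2 : IsClosed (Icc (0 : ℝ) 1 ∩ (fun s => f (R.edge e s)) ⁻¹' C) :=
    (hf e).preimage_isClosed_of_isClosed isClosed_Icc hC
  have h3 : IsCompact (Icc (0 : ℝ) 1 ∩ (fun s => f (R.edge e s)) ⁻¹' C) :=
    isCompact_Icc.of_isClosed_subset h2 inter_subset_left
  exact (h3.image_of_continuousOn ((R.cont e).mono inter_subset_left)).isClosed

/-- the open edges are open -/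
theorem isOpen_edge [T2Space X] [Finite V] [Finite E] (e : E) :
    IsOpen (R.edge e '' Ioo 0 1) := by
  classical
  have h : (R.edge e '' Ioo 0 1)ᶜ = (R.vert '' univ) ∪ ⋃ e' : {e' // e' ≠ e},
      R.edge e' '' (Icc 0 1) := by
    ext x
    simp only [mem_compl_iff, mem_union, mem_iUnion, image_univ, mem_range]
    constructor
    · intro hx
      rcases R.cover x with ⟨v, rfl⟩ | ⟨e', s, hs, rfl⟩
      · exact Or.inl ⟨v, rfl⟩
      · refine Or.inr ⟨⟨e', ?_⟩, s, Ioo_subset_Icc_self hs, rfl⟩
        rintro rfl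
        exact hx ⟨s, hs, rfl⟩
    · rintro (⟨v, rfl⟩ | ⟨⟨e', he'⟩, s, hs, rfl⟩) ⟨t, ht, hts⟩
      · exact R.edge_ne e t v ht hts
      · rcases Icc_cases hs with rfl | rfl | hs
        · exact R.edge_ne e t _ ht (hts.trans (R.edge_zero e'))
        · exact R.edge_ne e t _ ht (hts.trans (R.edge_one e'))
        · exact he' (R.edge_inj e e' t s ht hs hts).1.symm
  rw [← isClosed_compl_iff, h]
  refine IsClosed.union ((Set.toFinite _).isClosed) ?_
  exact isClosed_iUnion_of_finite fun e' => (isCompact_Icc.image_of_continuousOn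
    (R.cont e')).isClosed

/-- an edge whose ends are distinct is injective on `[0,1]` -/
theorem edge_injOn {e : E} (he : G.fst e ≠ G.snd e) : InjOn (R.edge e) (Icc 0 1) := by
  intro s hs t ht hst
  rcases Icc_cases hs with rfl | rfl | hs
  · rcases Icc_cases ht with rfl | rfl | ht
    · rfl
    · rw [R.edge_zero, R.edge_one] at hst
      exact absurd (R.vert_inj hst) he
    · exact absurd ((hst.symm).trans (R.edge_zero e)) (R.edge_ne e t _ ht)
  · rcases Icc_cases ht with rfl | rfl | ht
    · rw [R.edge_zero, R.edge_one] at hst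
      exact absurd (R.vert_inj hst).symm he
    · rfl
    · exact absurd ((hst.symm).trans (R.edge_one e)) (R.edge_ne e t _ ht)
  · rcases Icc_cases ht with rfl | rfl | ht
    · exact absurd (hst.trans (R.edge_zero e)) (R.edge_ne e s _ hs)
    · exact absurd (hst.trans (R.edge_one e)) (R.edge_ne e s _ hs)
    · exact (R.edge_inj e e s t hs ht hst).2

end GSpace

end Pool.Agent.W620.KT
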