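import Pool.Agent.W620.KT.Fibre

open Set

namespace Pool.Agent.W620.KT

universe u v w x y z

open Classical in
/-- the number of edges of `G` joining a vertex over `y` and a vertex over `y'` -/
noncomputable def MGraph.cnt {V : Type u} {E : Type v} {W : Type w} [Fintype E] (G : MGraph V E)
    (φ : V → W) (y y' : W) : ℕ :=
  (Finset.univ.filter (fun e : E => (φ (G.fst e) = y ∧ φ (G.snd e) = y') ∨
    (φ (G.fst e) = y' ∧ φ (G.snd e) = y))).card

/-- `y` and `y'` are joined by an edge -/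
def MGraph.Adj {V : Type u} {E : Type v} (H : MGraph V E) (y y' : V) : Prop :=
  ∃ e, (H.fst e = y ∧ H.snd e = y') ∨ (H.fst e = y' ∧ H.snd e = y)

open Classical in
/-- the conditions on a map `φ` from the vertices of `G` to the vertices of `H` -/
structure Admissible {V : Type u} {E : Type v} {V' : Type x} {E' : Type y} [Fintype V]
    [Fintype E] [Fintype V'] (k : ℕ) (G : MGraph V E) (H : MGraph V' E') (φ : V → V') : Prop where
  fib : ∀ y, (Finset.univ.filter (fun v => φ v = y)).card = k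
  far : ∀ y y', y ≠ y' → ¬ H.Adj y y' → G.cnt φ y y' = 0
  adj : ∀ y y', H.Adj y y' → G.cnt φ y y' ≤ k ∧ G.cnt φ y y' % 2 = k % 2
  inner_ge : ∀ y, (Finset.univ.filter (fun y' => H.Adj y y' ∧ G.cnt φ y y' = 0)).card ≤ G.cnt φ y y
  inner_le : ∀ y, 2 * G.cnt φ y y + ∑ y' ∈ Finset.univ.filter (fun y' => H.Adj y y'),
    G.cnt φ y y' ≤ k * (Finset.univ.filter (fun y' => H.Adj y y')).card

/-- no loops, no multiple edges -/
structure MGraph.Simple {V : Type u} {E : Type v} (H : MGraph V E) : Prop where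
  ne : ∀ η c c', H.endp η c = H.endp η c' → c = c'
  uniq : ∀ η η' c c', H.endp η c = H.endp η' c' → H.endp η (!c) = H.endp η' (!c') → η = η'

variable {V : Type u} {E : Type v} {V' : Type x} {E' : Type y}
variable {G : MGraph V E} {H : MGraph V' E'}

lemma adj_iff {y y' : V'} : H.Adj y y' ↔ ∃ q : E' × Bool, H.endp q.1 q.2 = y ∧
    H.endp q.1 (!q.2) = y' := by
  constructor
  · rintro ⟨e, ⟨h1, h2⟩ | ⟨h1, h2⟩⟩
    · exact ⟨(e, false), h1, h2⟩
    · exact ⟨(e, true), h2, h1⟩
  · rintro ⟨⟨e, c⟩, h1, h2⟩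
    cases c
    · exact ⟨e, Or.inl ⟨h1, h2⟩⟩
    · exact ⟨e, Or.inr ⟨h2, h1⟩⟩

open Classical in
/-- sums over the neighbours are sums over the ends of edges -/
lemma sum_adj [Fintype V'] [Fintype E'] (hH : H.Simple) (y : V') (F : V' → ℕ) :
    ∑ y' ∈ Finset.univ.filter (fun y' => H.Adj y y'), F y' =
      ∑ q : {q : E' × Bool // H.endp q.1 q.2 = y}, F (H.endp q.1.1 (!q.1.2)) := by
  symm
  refine Finset.sum_bij (fun q _ => H.endp q.1.1 (!q.1.2)) ?_ ?_ ?_ ?_
  · rintro ⟨q, hq⟩ _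
    rw [Finset.mem_filter]
    exact ⟨Finset.mem_univ _, adj_iff.2 ⟨q, hq, rfl⟩⟩
  · rintro ⟨⟨η, c⟩, hq⟩ _ ⟨⟨η', c'⟩, hq'⟩ _ h
    simp only at h hq hq'
    have h1 := hH.uniq η η' c c' (hq.trans hq'.symm) h
    subst h1
    have h2 := hH.ne η c c' (hq.trans hq'.symm)
    subst h2
    rfl
  · intro y' hy'
    rw [Finset.mem_filter] at hy'
    obtain ⟨q, hq, hq'⟩ := adj_iff.1 hy'.2
    exact ⟨⟨q, hq⟩, Finset.mem_univ _, hq'⟩
  · intro q _
    rfl

open Classical in
/-- the edges of `G` over the edge `η` with both ends over the end `c` of `η` -/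
noncomputable def lps [Fintype E] (ψ : E → E') (a b : E → Bool) (η : E') (c : Bool) : ℕ :=
  (Finset.univ.filter (fun ε => ψ ε = η ∧ a ε = c ∧ b ε = c)).card

open Classical in
lemma germs_eq [Fintype E] (hH : H.Simple) {φ : V → V'} {ψ : E → E'} {a b : E → Bool}
    (hf : ∀ ε, φ (G.fst ε) = H.endp (ψ ε) (a ε)) (hs : ∀ ε, φ (G.snd ε) = H.endp (ψ ε) (b ε))
    (η : E') (c : Bool) :
    germs ψ a b η c = G.cnt φ (H.endp η c) (H.endp η (!c)) + 2 * lps ψ a b η c := by
  unfold germs MGraph.cnt lps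
  simp only [Finset.card_filter]
  rw [Finset.mul_sum, ← Finset.sum_add_distrib, ← Finset.sum_add_distrib]
  refine Finset.sum_congr rfl fun ε _ => ?_
  have key : ((φ (G.fst ε) = H.endp η c ∧ φ (G.snd ε) = H.endp η (!c)) ∨
      (φ (G.fst ε) = H.endp η (!c) ∧ φ (G.snd ε) = H.endp η c)) ↔
      (ψ ε = η ∧ a ε ≠ b ε) := by
    constructor
    · rintro (⟨h1, h2⟩ | ⟨h1, h2⟩)
      · rw [hf] at h1
        rw [hs] at h2
        have hab : a ε ≠ b ε := by
          intro hab
          rw [hab, h2] at h1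
          have := hH.ne _ _ _ h1
          cases c <;> simp at this
        have hb : b ε = !(a ε) := by
          cases h3 : a ε <;> cases h4 : b ε <;> simp_all
        rw [hb] at h2
        exact ⟨hH.uniq _ _ _ _ h1 h2, hab⟩
      · rw [hf] at h1
        rw [hs] at h2
        have hab : a ε ≠ b ε := by
          intro hab
          rw [hab, h2] at h1
          have := hH.ne _ _ _ h1
          cases c <;> simp at this
        have hb : a ε = !(b ε) := by
          cases h3 : a ε <;> cases h4 : b ε <;> simp_all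
        rw [hb] at h1
        exact ⟨hH.uniq _ _ _ _ h2 h1, hab⟩
    · rintro ⟨rfl, hab⟩
      rw [hf, hs]
      cases h3 : a ε <;> cases h4 : b ε <;> cases c <;> simp_all
  simp only [key]
  by_cases h : ψ ε = η
  · cases h3 : a ε <;> cases h4 : b ε <;> cases c <;> simp [h]
  · simp [h]

open Classical in
/-- the number of inner edges -/
lemma inner_eq [Fintype E] [Fintype E'] (hH : H.Simple) {φ : V → V'} {ψ : E → E'}
    {a b : E → Bool}
    (hf : ∀ ε, φ (G.fst ε) = H.endp (ψ ε) (a ε)) (hs : ∀ ε, φ (G.snd ε) = H.endp (ψ ε) (b ε))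
    (y : V') :
    G.cnt φ y y = ∑ q : {q : E' × Bool // H.endp q.1 q.2 = y}, lps ψ a b q.1.1 q.1.2 := by
  unfold MGraph.cnt lps
  have h1 : (Finset.univ.filter (fun e : E => (φ (G.fst e) = y ∧ φ (G.snd e) = y) ∨
      (φ (G.fst e) = y ∧ φ (G.snd e) = y))) =
      Finset.univ.biUnion (fun q : {q : E' × Bool // H.endp q.1 q.2 = y} =>
        Finset.univ.filter (fun ε => ψ ε = q.1.1 ∧ a ε = q.1.2 ∧ b ε = q.1.2)) := by
    ext ε
    simp only [Finset.mem_filter, Finset.mem_univ, true_and, or_self, Finset.mem_biUnion]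
    constructor
    · rintro ⟨h1, h2⟩
      rw [hf] at h1
      rw [hs] at h2
      have hab := hH.ne _ _ _ (h1.trans h2.symm)
      exact ⟨⟨(ψ ε, a ε), h1⟩, rfl, rfl, hab.symm⟩
    · rintro ⟨⟨⟨η, c⟩, hq⟩, h1, h2, h3⟩
      simp only at h1 h2 h3 hq
      rw [hf, hs, h1, h2, h3]
      exact ⟨hq, hq⟩
  rw [h1, Finset.card_biUnion]
  rintro ⟨⟨η, c⟩, hq⟩ _ ⟨⟨η', c'⟩, hq'⟩ _ hne
  rw [Function.onFun, Finset.disjoint_left]
  intro ε hε hε'
  rw [Finset.mem_filter] at hε hε'
  apply hne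
  obtain ⟨_, h1, h2, _⟩ := hε
  obtain ⟨_, h1', h2', _⟩ := hε'
  simp only at h1 h2 h1' h2'
  subst h1 h2
  subst h1' h2'
  rfl

open Classical in
/-- from edge maps to counts -/
theorem admissible_of_psi [Fintype V] [Fintype E] [Fintype V'] [Fintype E'] (hH : H.Simple)
    {k : ℕ} {φ : V → V'} {ψ : E → E'} {a b : E → Bool} (hP : PsiCond k G H φ ψ a b) :
    Admissible k G H φ := by
  have hg := germs_eq hH hP.efst hP.esnd
  refine ⟨hP.fib, ?_, ?_, ?_, ?_⟩
  · intro y y' hne hadj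
    unfold MGraph.cnt
    rw [Finset.card_eq_zero, Finset.filter_eq_empty_iff]
    rintro ε _ (⟨h1, h2⟩ | ⟨h1, h2⟩)
    · rw [hP.efst] at h1
      rw [hP.esnd] at h2
      apply hadj
      refine adj_iff.2 ⟨(ψ ε, a ε), h1, ?_⟩
      have hab : a ε ≠ b ε := by
        intro hab
        rw [hab] at h1
        exact hne (h1.symm.trans h2)
      have hb : b ε = !(a ε) := by
        cases h3 : a ε <;> cases h4 : b ε <;> simp_all
      simp only
      rw [← hb]
      exact h2
    · rw [hP.efst] at h1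
      rw [hP.esnd] at h2
      apply hadj
      refine adj_iff.2 ⟨(ψ ε, b ε), h2, ?_⟩
      have hab : a ε ≠ b ε := by
        intro hab
        rw [hab] at h1
        exact hne (h2.symm.trans h1)
      have hb : a ε = !(b ε) := by
        cases h3 : a ε <;> cases h4 : b ε <;> simp_all
      simp only
      rw [← hb]
      exact h1
  · intro y y' hadj
    obtain ⟨⟨η, c⟩, rfl, rfl⟩ := adj_iff.1 hadj
    obtain ⟨_, h2, h3⟩ := hP.ger η c
    rw [hg] at h2 h3
    simp only
    omega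
  · intro y
    have h1 : (Finset.univ.filter (fun y' => H.Adj y y' ∧ G.cnt φ y y' = 0)).card =
        ∑ y' ∈ Finset.univ.filter (fun y' => H.Adj y y'), if G.cnt φ y y' = 0 then 1 else 0 := by
      rw [← Finset.filter_filter, Finset.card_filter]
    rw [h1, sum_adj hH, inner_eq hH hP.efst hP.esnd]
    refine Finset.sum_le_sum ?_
    rintro ⟨⟨η, c⟩, rfl⟩ _
    split_ifs with h
    · obtain ⟨h1, _, _⟩ := hP.ger η c
      rw [hg] at h1
      have h' : G.cnt φ (H.endp η c) (H.endp η (!c)) = 0 := h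
      rw [h'] at h1
      change 1 ≤ lps ψ a b η c
      omega
    · exact Nat.zero_le _
  · intro y
    rw [Finset.card_eq_sum_ones, sum_adj hH, sum_adj hH, inner_eq hH hP.efst hP.esnd,
      Finset.mul_sum, ← Finset.sum_add_distrib, Finset.mul_sum]
    refine Finset.sum_le_sum ?_
    rintro ⟨⟨η, c⟩, rfl⟩ _
    obtain ⟨_, h2, _⟩ := hP.ger η c
    rw [hg] at h2
    simp only at h2 ⊢
    omega

/-- intermediate sums -/
lemma exists_sum {B : Type*} [Fintype B] (lo hi : B → ℕ) (h : ∀ b, lo b ≤ hi b) (N : ℕ)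
    (h1 : ∑ b, lo b ≤ N) (h2 : N ≤ ∑ b, hi b) :
    ∃ l : B → ℕ, (∀ b, lo b ≤ l b) ∧ (∀ b, l b ≤ hi b) ∧ ∑ b, l b = N := by
  classical
  induction N, h1 using Nat.le_induction with
  | base => exact ⟨lo, fun b => le_rfl, h, rfl⟩
  | succ N hN ih =>
    obtain ⟨l, hl1, hl2, hl3⟩ := ih (by omega)
    have hex : ∃ b, l b < hi b := by
      by_contra hcon
      push Not at hcon
      have : ∑ b, hi b ≤ ∑ b, l b := Finset.sum_le_sum fun b _ => hcon b
      omega
    obtain ⟨b0, hb0⟩ := hex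
    refine ⟨Function.update l b0 (l b0 + 1), ?_, ?_, ?_⟩
    · intro b
      by_cases hb : b = b0
      · subst hb
        rw [Function.update_self]
        exact (hl1 b).trans (Nat.le_succ _)
      · rw [Function.update_of_ne hb]
        exact hl1 b
    · intro b
      by_cases hb : b = b0
      · subst hb
        rw [Function.update_self]
        exact hb0
      · rw [Function.update_of_ne hb]
        exact hl2 b
    · rw [Finset.sum_update_of_mem (Finset.mem_univ _)]
      rw [← Finset.add_sum_erase _ l (Finset.mem_univ b0)] at hl3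
      rw [← Finset.erase_eq]
      omega

/-- distribution with bounds -/
lemma exists_distribution {A B : Type*} [Fintype A] [Fintype B] [DecidableEq B] (lo hi : B → ℕ)
    (h : ∀ b, lo b ≤ hi b) (h1 : ∑ b, lo b ≤ Fintype.card A) (h2 : Fintype.card A ≤ ∑ b, hi b) :
    ∃ F : A → B, ∀ b, lo b ≤ (Finset.univ.filter (fun x => F x = b)).card ∧
      (Finset.univ.filter (fun x => F x = b)).card ≤ hi b := by
  obtain ⟨l, hl1, hl2, hl3⟩ := exists_sum lo hi h _ h1 h2
  have hc : Fintype.card A = Fintype.card (Σ b, Fin (l b)) := by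
    rw [Fintype.card_sigma]
    simp only [Fintype.card_fin]
    exact hl3.symm
  obtain ⟨e⟩ := Fintype.card_eq.1 hc
  have hF : ∀ b, (Finset.univ.filter (fun x => (e x).1 = b)).card = l b := by
    intro b
    have : (Finset.univ.filter (fun x => (e x).1 = b)).card = (Finset.univ : Finset (Fin (l b))).card := by
      symm
      refine Finset.card_bij (fun i _ => e.symm ⟨b, i⟩) ?_ ?_ ?_
      · intro i _
        simp
      · intro i _ j _ hij
        have := e.symm.injective hij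
        simpa using this
      · intro x hx
        rw [Finset.mem_filter] at hx
        obtain ⟨_, hx⟩ := hx
        refine ⟨hx ▸ (e x).2, Finset.mem_univ _, ?_⟩
        rw [Equiv.symm_apply_eq]
        subst hx
        rfl
    rw [this, Finset.card_univ, Fintype.card_fin]
  exact ⟨fun x => (e x).1, fun b => by rw [hF b]; exact ⟨hl1 b, hl2 b⟩⟩

open Classical in
/-- from counts to edge maps -/
theorem psi_of_admissible [Fintype V] [Fintype E] [Fintype V'] [Fintype E'] (hH : H.Simple)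
    {k : ℕ} (hk : 1 ≤ k) {φ : V → V'} (hA : Admissible k G H φ) :
    ∃ ψ a b, PsiCond k G H φ ψ a b := by
  -- distribution of the inner edges
  have hF : ∀ y, ∃ F : {ε : E // φ (G.fst ε) = y ∧ φ (G.snd ε) = y} →
      {q : E' × Bool // H.endp q.1 q.2 = y}, ∀ q,
        (if G.cnt φ y (H.endp q.1.1 (!q.1.2)) = 0 then 1 else 0) ≤
          (Finset.univ.filter (fun x => F x = q)).card ∧
        (Finset.univ.filter (fun x => F x = q)).card ≤
          (k - G.cnt φ y (H.endp q.1.1 (!q.1.2))) / 2 := by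
    intro y
    have hcnt : Fintype.card {ε : E // φ (G.fst ε) = y ∧ φ (G.snd ε) = y} = G.cnt φ y y := by
      rw [Fintype.card_subtype]
      unfold MGraph.cnt
      congr 1
      ext ε
      simp
    have hq : ∀ q : {q : E' × Bool // H.endp q.1 q.2 = y},
        H.Adj y (H.endp q.1.1 (!q.1.2)) := fun q => adj_iff.2 ⟨q.1, q.2, rfl⟩
    apply exists_distribution
    · intro q
      obtain ⟨h1, h2⟩ := hA.adj _ _ (hq q)
      split_ifs with h
      · omega
      · exact Nat.zero_le _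
    · rw [hcnt, ← sum_adj hH y (fun y' => if G.cnt φ y y' = 0 then 1 else 0)]
      refine le_trans (le_of_eq ?_) (hA.inner_ge y)
      rw [← Finset.filter_filter, Finset.card_filter]
    · rw [hcnt]
      have h1 := hA.inner_le y
      rw [Finset.card_eq_sum_ones, sum_adj hH, sum_adj hH, Finset.mul_sum] at h1
      have h2 : ∑ q : {q : E' × Bool // H.endp q.1 q.2 = y},
          (2 * ((k - G.cnt φ y (H.endp q.1.1 (!q.1.2))) / 2) +
            G.cnt φ y (H.endp q.1.1 (!q.1.2))) =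
          ∑ _q : {q : E' × Bool // H.endp q.1 q.2 = y}, k * 1 := by
        refine Finset.sum_congr rfl fun q _ => ?_
        obtain ⟨h3, h4⟩ := hA.adj _ _ (hq q)
        omega
      rw [Finset.sum_add_distrib, ← Finset.mul_sum] at h2
      omega
  choose F hF using hF
  have hex : ∀ ε, ∃ (η : E') (c d : Bool), φ (G.fst ε) = H.endp η c ∧
      φ (G.snd ε) = H.endp η d ∧ ∀ (h : φ (G.fst ε) = φ (G.snd ε)),
        (η, c) = (F (φ (G.fst ε)) ⟨ε, rfl, h.symm⟩).1 ∧ d = c := by
    intro ε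
    by_cases h : φ (G.fst ε) = φ (G.snd ε)
    · refine ⟨(F (φ (G.fst ε)) ⟨ε, rfl, h.symm⟩).1.1, (F (φ (G.fst ε)) ⟨ε, rfl, h.symm⟩).1.2,
        (F (φ (G.fst ε)) ⟨ε, rfl, h.symm⟩).1.2, ?_, ?_, fun _ => ⟨rfl, rfl⟩⟩
      · exact (F (φ (G.fst ε)) ⟨ε, rfl, h.symm⟩).2.symm
      · exact h.symm.trans (F (φ (G.fst ε)) ⟨ε, rfl, h.symm⟩).2.symm
    · have hadj : H.Adj (φ (G.fst ε)) (φ (G.snd ε)) := by
        by_contra hcon
        have := hA.far _ _ h hcon
        unfold MGraph.cnt at this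
        rw [Finset.card_eq_zero, Finset.filter_eq_empty_iff] at this
        exact this (Finset.mem_univ ε) (Or.inl ⟨rfl, rfl⟩)
      obtain ⟨q, h1, h2⟩ := adj_iff.1 hadj
      exact ⟨q.1, q.2, !q.2, h1.symm, h2.symm, fun h' => absurd h' h⟩
  choose ψ a b hf hs hin using hex
  have hFeq : ∀ (ε : E) (y : V') (h1 : φ (G.fst ε) = y) (h2 : φ (G.snd ε) = y)
      (h : φ (G.fst ε) = φ (G.snd ε)),
      (F (φ (G.fst ε)) ⟨ε, rfl, h.symm⟩).1 = (F y ⟨ε, h1, h2⟩).1 := by
    intro ε y h1 h2 h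
    subst h1
    rfl
  refine ⟨ψ, a, b, hA.fib, hf, hs, ?_⟩
  intro η c
  rw [germs_eq hH hf hs]
  set y := H.endp η c with hy
  have hl : lps ψ a b η c =
      (Finset.univ.filter (fun x => F y x = ⟨(η, c), hy.symm⟩)).card := by
    unfold lps
    symm
    refine Finset.card_bij (fun x _ => x.1) ?_ ?_ ?_
    · rintro ⟨ε, h1, h2⟩ hx
      rw [Finset.mem_filter] at hx ⊢
      obtain ⟨h3, h4⟩ := hin ε (h1.trans h2.symm)
      have h5 : (F y ⟨ε, h1, h2⟩).1 = (η, c) := congrArg Subtype.val hx.2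
      rw [hFeq ε y h1 h2 (h1.trans h2.symm), h5] at h3
      simp only [Prod.mk.injEq] at h3
      exact ⟨Finset.mem_univ _, h3.1, h3.2, h4.trans h3.2⟩
    · rintro x _ x' _ hxx
      exact Subtype.ext hxx
    · intro ε hε
      rw [Finset.mem_filter] at hε
      obtain ⟨_, h1, h2, h3⟩ := hε
      have e1 : φ (G.fst ε) = y := by rw [hf, h1, h2]
      have e2 : φ (G.snd ε) = y := by rw [hs, h1, h3]
      refine ⟨⟨ε, e1, e2⟩, ?_, rfl⟩
      rw [Finset.mem_filter]
      refine ⟨Finset.mem_univ _, ?_⟩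
      obtain ⟨h4, h5⟩ := hin ε (e1.trans e2.symm)
      apply Subtype.ext
      rw [h1, h2, hFeq ε y e1 e2 (e1.trans e2.symm)] at h4
      exact h4.symm
  obtain ⟨h1, h2⟩ := hF y ⟨(η, c), hy.symm⟩
  rw [← hl] at h1 h2
  simp only at h1 h2
  obtain ⟨h3, h4⟩ := hA.adj y (H.endp η (!c)) (adj_iff.2 ⟨(η, c), hy.symm, rfl⟩)
  split_ifs at h1 with h5
  · omega
  · omega

end Pool.Agent.W620.KT
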