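import Pool.Agent.W620.KT.Arc

open Set Topology Filter

namespace Pool.Agent.W620.KT

open Finset in
/-- choice of the oscillation numbers -/
lemma exists_osc {J : Type*} [Fintype J] [DecidableEq J] (τ : J → Bool) (k : ℕ)
    (h : ∀ c, 1 ≤ (univ.filter (fun x => τ x = c)).card ∧
      (univ.filter (fun x => τ x = c)).card ≤ k ∧
      (univ.filter (fun x => τ x = c)).card % 2 = k % 2) :
    ∃ d : J → ℕ, ∀ c, ∑ x ∈ univ.filter (fun x => τ x = c), (2 * d x + 1) = k := by
  have h1 : ∀ c, ∃ x, τ x = c := by
    intro c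
    obtain ⟨x, hx⟩ := Finset.card_pos.1 (h c).1
    exact ⟨x, by simpa using hx⟩
  choose pick hpick using h1
  refine ⟨fun x => if x = pick (τ x) then (k - (univ.filter (fun y => τ y = τ x)).card) / 2
    else 0, fun c => ?_⟩
  rw [Finset.sum_add_distrib, ← Finset.mul_sum]
  have h2 : ∑ x ∈ univ.filter (fun x => τ x = c), (if x = pick (τ x) then
      (k - (univ.filter (fun y => τ y = τ x)).card) / 2 else 0) =
      (k - (univ.filter (fun y => τ y = c)).card) / 2 := by
    rw [Finset.sum_eq_single (pick c)]
    · rw [hpick c, if_pos rfl]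
    · intro x hx hxc
      rw [Finset.mem_filter] at hx
      rw [if_neg]
      rw [hx.2]
      exact hxc
    · intro hx
      exact absurd (by simp [hpick c]) hx
  rw [h2]
  simp only [Finset.sum_const, smul_eq_mul, mul_one]
  obtain ⟨h3, h4, h5⟩ := h c
  omega

open Finset in
/-- the family of arcs over an edge -/
theorem arc_family {J : Type*} [Fintype J] (a b : J → Bool) (k : ℕ)
    (h : ∀ c, 1 ≤ (univ.filter (fun j => a j = c)).card + (univ.filter (fun j => b j = c)).card ∧
      (univ.filter (fun j => a j = c)).card + (univ.filter (fun j => b j = c)).card ≤ k ∧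
      ((univ.filter (fun j => a j = c)).card + (univ.filter (fun j => b j = c)).card) % 2
        = k % 2) :
    ∃ g : J → ℝ → ℝ, (∀ j, ContinuousOn (g j) (Icc 0 1)) ∧ (∀ j, g j 0 = endv (a j)) ∧
      (∀ j, g j 1 = endv (b j)) ∧ (∀ j, ∀ s ∈ Ioo (0 : ℝ) 1, g j s ∈ Ioo (0 : ℝ) 1) ∧
      (∀ t ∈ Ioo (0 : ℝ) 1, (∀ j, {s : ℝ | s ∈ Ioo (0 : ℝ) 1 ∧ g j s = t}.Finite) ∧
        ∑ j, {s : ℝ | s ∈ Ioo (0 : ℝ) 1 ∧ g j s = t}.ncard = k) := by
  classical
  have hτ : ∀ c : Bool, (univ.filter (fun x : J ⊕ J => Sum.elim a b x = c)).card =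
      (univ.filter (fun j => a j = c)).card + (univ.filter (fun j => b j = c)).card := by
    intro c
    rw [Finset.card_filter, Fintype.sum_sum_type, Finset.card_filter, Finset.card_filter]
    rfl
  obtain ⟨d, hd⟩ := exists_osc (Sum.elim a b) k (by
    intro c
    rw [hτ c]
    exact h c)
  have hd' : ∀ c, ∑ j, (if a j = c then 2 * d (Sum.inl j) + 1 else 0) +
      ∑ j, (if b j = c then 2 * d (Sum.inr j) + 1 else 0) = k := by
    intro c
    have := hd c
    rw [Finset.sum_filter, Fintype.sum_sum_type] at this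
    exact this
  refine ⟨fun j => arc (a j) (b j) (d (Sum.inl j)) (d (Sum.inr j)),
    fun j => arc_contOn _ _ _ _, fun j => arc_zero _ _ _ _, fun j => arc_one _ _ _ _,
    fun j s hs => arc_mem _ _ _ _ hs, ?_⟩
  intro t ht
  have hfin : ∀ j, {s : ℝ | s ∈ Ioo (0 : ℝ) 1 ∧
      arc (a j) (b j) (d (Sum.inl j)) (d (Sum.inr j)) s = t}.Finite := by
    intro j
    have hL := hc_pos_fin (a j) (d (Sum.inl j)) ht
    have hR := (hc_pos_fin (b j) (d (Sum.inr j)) ht).image (fun s : ℝ => 1 - s)
    refine (hL.union hR).subset ?_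
    rintro s ⟨hs, hst⟩
    rcases le_total s (1 / 2) with h | h
    · left
      rw [arc_left _ _ _ _ h] at hst
      exact ⟨⟨hs.1, h⟩, hst⟩
    · right
      rw [arc_right _ _ _ _ h] at hst
      refine ⟨1 - s, ⟨⟨by linarith [hs.2], by linarith⟩, ?_⟩, by ring⟩
      rw [← hst]
      congr 3
      ring
  refine ⟨hfin, ?_⟩
  have hcount : ∑ j, {s : ℝ | s ∈ Ioo (0 : ℝ) 1 ∧
      arc (a j) (b j) (d (Sum.inl j)) (d (Sum.inr j)) s = t}.ncard +
      ∑ _j : J, (if t = 1 / 2 then 1 else 0) =
      ∑ j, hc (a j) (d (Sum.inl j)) t + ∑ j, hc (b j) (d (Sum.inr j)) t := by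
    rw [← Finset.sum_add_distrib, ← Finset.sum_add_distrib]
    exact Finset.sum_congr rfl fun j _ => arc_count _ _ _ _ ht
  have hf := hd' false
  have htr := hd' true
  by_cases h1 : t = 1 / 2
  · simp only [h1, if_true, hc] at hcount
    simp only [h1]
    have e1 : ∀ (c : J → Bool) (e : J → ℕ), ∑ j, (if c j = false then 2 * e j + 1 else 0) +
        ∑ j, (if c j = true then 2 * e j + 1 else 0) = ∑ j, (2 * e j + 1) := by
      intro c e
      rw [← Finset.sum_add_distrib]
      refine Finset.sum_congr rfl fun j _ => ?_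
      cases c j <;> simp
    have e2 := e1 a (fun j => d (Sum.inl j))
    have e3 := e1 b (fun j => d (Sum.inr j))
    have e4 : ∀ (e : J → ℕ), ∑ j, (2 * e j + 1) = 2 * ∑ j, (e j + 1) - ∑ _j : J, 1 := by
      intro e
      simp only [Finset.sum_add_distrib, Finset.mul_sum, mul_add]
      simp only [Finset.sum_const, smul_eq_mul, mul_one]
      omega
    have e5 : ∀ (e : J → ℕ), ∑ _j : J, 1 ≤ ∑ j, (e j + 1) := by
      intro e
      exact Finset.sum_le_sum fun j _ => by omega
    have e6 := e5 (fun j => d (Sum.inl j))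
    have e7 := e5 (fun j => d (Sum.inr j))
    rw [e4] at e2 e3
    omega
  · simp only [h1, if_false, Finset.sum_const_zero, add_zero, hc] at hcount
    rw [hcount]
    rcases lt_or_gt_of_ne h1 with h2 | h2
    · rw [← hf]
      congr 1
      · refine Finset.sum_congr rfl fun j _ => ?_
        cases a j
        · simp only [side, Bool.false_eq_true, if_false, h2, if_true]
        · have : ¬ (1 - t < 1 / 2) := by linarith
          simp only [side, if_true, this, if_false]
          simp
      · refine Finset.sum_congr rfl fun j _ => ?_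
        cases b j
        · simp only [side, Bool.false_eq_true, if_false, h2, if_true]
        · have : ¬ (1 - t < 1 / 2) := by linarith
          simp only [side, if_true, this, if_false]
          simp
    · rw [← htr]
      have h3 : ¬ (t < 1 / 2) := by linarith
      have h4 : 1 - t < 1 / 2 := by linarith
      congr 1
      · refine Finset.sum_congr rfl fun j _ => ?_
        cases a j
        · simp only [side, Bool.false_eq_true, if_false, h3]
        · simp only [side, if_true, h4]
      · refine Finset.sum_congr rfl fun j _ => ?_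
        cases b j
        · simp only [side, Bool.false_eq_true, if_false, h3]
        · simp only [side, if_true, h4]

end Pool.Agent.W620.KT
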