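import Pool.Agent.W620.KT.Basic
import Pool.Agent.W620.KT.Arc

open Set Topology Filter

namespace Pool.Agent.W620.KT

universe u v w x y z

variable {V : Type u} {E : Type v} {V' : Type x} {E' : Type y}

/-- the end `fst` (for `false`) or `snd` (for `true`) -/
def MGraph.endp (H : MGraph V' E') (η : E') (c : Bool) : V' := if c then H.snd η else H.fst η

/-- the number of germs of edges of `G` over the end `c` of the edge `η` -/
def germs [Fintype E] [DecidableEq E'] (ψ : E → E') (a b : E → Bool) (η : E') (c : Bool) : ℕ :=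
  (Finset.univ.filter (fun ε => ψ ε = η ∧ a ε = c)).card +
    (Finset.univ.filter (fun ε => ψ ε = η ∧ b ε = c)).card

/-- the combinatorial data of a map sending vertices to vertices and open edges into open edges -/
structure PsiCond [Fintype V] [Fintype E] [DecidableEq V'] [DecidableEq E'] (k : ℕ)
    (G : MGraph V E) (H : MGraph V' E') (φ : V → V') (ψ : E → E') (a b : E → Bool) : Prop where
  fib : ∀ w, (Finset.univ.filter (fun v => φ v = w)).card = k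
  efst : ∀ ε, φ (G.fst ε) = H.endp (ψ ε) (a ε)
  esnd : ∀ ε, φ (G.snd ε) = H.endp (ψ ε) (b ε)
  ger : ∀ η c, 1 ≤ germs ψ a b η c ∧ germs ψ a b η c ≤ k ∧ germs ψ a b η c % 2 = k % 2

variable {G : MGraph V E} {H : MGraph V' E'} {X : Type w} {Y : Type z} [TopologicalSpace X]
  [TopologicalSpace Y]

lemma GSpace.edge_endv (S : GSpace H Y) (η : E') (c : Bool) :
    S.edge η (endv c) = S.vert (H.endp η c) := by
  cases c
  · simpa [endv, MGraph.endp] using S.edge_zero η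
  · simpa [endv, MGraph.endp] using S.edge_one η

/-- points of a fibre over an interior point of an edge -/
theorem fibre_bij (R : GSpace G X) (S : GSpace H Y) (f : X → Y) (ψ : E → E') (g : E → ℝ → ℝ)
    (hf : ∀ ε, ∀ s ∈ Ioo (0 : ℝ) 1, f (R.edge ε s) = S.edge (ψ ε) (g ε s))
    (hg : ∀ ε, ∀ s ∈ Ioo (0 : ℝ) 1, g ε s ∈ Ioo (0 : ℝ) 1)
    (hv : ∀ v, ∃ w, f (R.vert v) = S.vert w) (η : E') {t : ℝ} (ht : t ∈ Ioo (0 : ℝ) 1) :
    Nonempty ((Σ ε : {ε // ψ ε = η}, {s : ℝ | s ∈ Ioo (0 : ℝ) 1 ∧ g ε.1 s = t}) ≃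
      (f ⁻¹' {S.edge η t} : Set X)) := by
  refine ⟨Equiv.ofBijective (fun p => ⟨R.edge p.1.1 p.2.1, ?_⟩) ⟨?_, ?_⟩⟩
  · obtain ⟨⟨ε, hε⟩, s, hs, hst⟩ := p
    simp only [mem_preimage, mem_singleton_iff]
    rw [hf ε s hs, hε, hst]
  · rintro ⟨⟨ε, hε⟩, s, hs, hst⟩ ⟨⟨ε', hε'⟩, s', hs', hst'⟩ h
    simp only [Subtype.mk.injEq] at h
    obtain ⟨rfl, rfl⟩ := R.edge_inj ε ε' s s' hs hs' h
    rfl
  · rintro ⟨x, hx⟩
    simp only [mem_preimage, mem_singleton_iff] at hx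
    rcases R.cover x with ⟨v, rfl⟩ | ⟨ε, s, hs, rfl⟩
    · obtain ⟨w, hw⟩ := hv v
      exact absurd (hx.symm.trans hw) (S.edge_ne η t w ht)
    · rw [hf ε s hs] at hx
      obtain ⟨h1, h2⟩ := S.edge_inj _ _ _ _ (hg ε s hs) ht hx
      exact ⟨⟨⟨ε, h1⟩, s, hs, h2⟩, rfl⟩

lemma card_sub [Fintype E] [DecidableEq E'] (ψ : E → E') (η : E') (a : E → Bool) (c : Bool) :
    (Finset.univ.filter (fun j : {ε // ψ ε = η} => a j.1 = c)).card =
      (Finset.univ.filter (fun ε => ψ ε = η ∧ a ε = c)).card := by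
  refine Finset.card_bij (fun j _ => j.1) ?_ ?_ ?_
  · rintro ⟨ε, hε⟩ hj
    rw [Finset.mem_filter] at hj ⊢
    exact ⟨Finset.mem_univ _, hε, hj.2⟩
  · rintro j _ j' _ h
    exact Subtype.ext h
  · intro ε hε
    rw [Finset.mem_filter] at hε
    exact ⟨⟨ε, hε.2.1⟩, Finset.mem_filter.2 ⟨Finset.mem_univ _, hε.2.2⟩, rfl⟩

end Pool.Agent.W620.KT
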