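import Pool.Agent.W620.KT.Parity
import Pool.Agent.W620.KT.Arc

open Set Topology Filter

namespace Pool.Agent.W620.KT

variable {J : Type*} [Fintype J]

lemma local_le (g : J → ℝ → ℝ) (a b : J → Bool) (k : ℕ)
    (hc : ∀ j, ContinuousOn (g j) (Icc 0 1)) (h0 : ∀ j, g j 0 = endv (a j))
    (h1 : ∀ j, g j 1 = endv (b j)) (hm : ∀ j, ∀ s ∈ Ioo (0 : ℝ) 1, g j s ∈ Ioo (0 : ℝ) 1)
    (hcount : ∀ t ∈ Ioo (0 : ℝ) 1, (∀ j, {s : ℝ | s ∈ Ioo (0 : ℝ) 1 ∧ g j s = t}.Finite) ∧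
        ∑ j, {s : ℝ | s ∈ Ioo (0 : ℝ) 1 ∧ g j s = t}.ncard = k) :
    (Finset.univ.filter (fun j => a j = false)).card +
      (Finset.univ.filter (fun j => b j = false)).card ≤ k := by
  classical
  have hev : ∀ᶠ t in 𝓝[>] (0 : ℝ), ∀ j, t < g j (1 / 2) := by
    rw [eventually_all]
    intro j
    have : 0 < g j (1 / 2) := (hm j (1 / 2) ⟨by norm_num, by norm_num⟩).1
    exact eventually_nhdsWithin_of_eventually_nhds (eventually_lt_nhds this)
  have hev2 : ∀ᶠ t in 𝓝[>] (0 : ℝ), t ∈ Ioo (0 : ℝ) 1 := Ioo_mem_nhdsGT one_pos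
  obtain ⟨t, ht, ht1⟩ := (hev.and hev2).exists
  obtain ⟨hfin, hsum⟩ := hcount t ht1
  rw [← hsum, Finset.card_filter, Finset.card_filter, ← Finset.sum_add_distrib]
  refine Finset.sum_le_sum fun j _ => ?_
  have hL : a j = false → ∃ s ∈ Ioo (0 : ℝ) (1 / 2), g j s = t := by
    intro hj
    have e0 : g j 0 = 0 := by rw [h0, hj]; rfl
    have := intermediate_value_Ioo (show (0 : ℝ) ≤ 1 / 2 by norm_num)
      ((hc j).mono (Icc_subset_Icc_right (by norm_num)))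
    obtain ⟨s, hs, hst⟩ := this (show t ∈ Ioo (g j 0) (g j (1 / 2)) from ⟨by rw [e0]; exact ht1.1, ht j⟩)
    exact ⟨s, hs, hst⟩
  have hR : b j = false → ∃ s ∈ Ioo (1 / 2 : ℝ) 1, g j s = t := by
    intro hj
    have e0 : g j 1 = 0 := by rw [h1, hj]; rfl
    have := intermediate_value_Ioo' (show (1 / 2 : ℝ) ≤ 1 by norm_num)
      ((hc j).mono (Icc_subset_Icc_left (by norm_num)))
    obtain ⟨s, hs, hst⟩ := this (show t ∈ Ioo (g j 1) (g j (1 / 2)) from ⟨by rw [e0]; exact ht1.1, ht j⟩)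
    exact ⟨s, hs, hst⟩
  by_cases ha : a j = false <;> by_cases hb : b j = false
  · rw [if_pos ha, if_pos hb]
    obtain ⟨s, hs, hst⟩ := hL ha
    obtain ⟨u, hu, hut⟩ := hR hb
    have hsu : s ≠ u := (hs.2.trans hu.1).ne
    have h2 : ({s, u} : Set ℝ).ncard = 1 + 1 := ncard_pair hsu
    rw [← h2]
    refine ncard_le_ncard ?_ (hfin j)
    rintro x (rfl | rfl)
    · exact ⟨⟨hs.1, hs.2.trans (by norm_num)⟩, hst⟩
    · exact ⟨⟨lt_trans (by norm_num) hu.1, hu.2⟩, hut⟩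
  · rw [if_pos ha, if_neg hb]
    obtain ⟨s, hs, hst⟩ := hL ha
    refine (ncard_pos (hfin j)).2 ⟨s, ⟨hs.1, hs.2.trans (by norm_num)⟩, hst⟩
  · rw [if_neg ha, if_pos hb]
    obtain ⟨u, hu, hut⟩ := hR hb
    refine (ncard_pos (hfin j)).2 ⟨u, ⟨lt_trans (by norm_num) hu.1, hu.2⟩, hut⟩
  · rw [if_neg ha, if_neg hb]
    exact Nat.zero_le _

lemma local_ge (g : J → ℝ → ℝ) (a b : J → Bool) (k : ℕ) (hk : 1 ≤ k)
    (hc : ∀ j, ContinuousOn (g j) (Icc 0 1)) (h0 : ∀ j, g j 0 = endv (a j))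
    (h1 : ∀ j, g j 1 = endv (b j)) (hm : ∀ j, ∀ s ∈ Ioo (0 : ℝ) 1, g j s ∈ Ioo (0 : ℝ) 1)
    (hcount : ∀ t ∈ Ioo (0 : ℝ) 1, (∀ j, {s : ℝ | s ∈ Ioo (0 : ℝ) 1 ∧ g j s = t}.Finite) ∧
        ∑ j, {s : ℝ | s ∈ Ioo (0 : ℝ) 1 ∧ g j s = t}.ncard = k) :
    1 ≤ (Finset.univ.filter (fun j => a j = false)).card +
      (Finset.univ.filter (fun j => b j = false)).card := by
  classical
  by_contra hcon
  have hz : (Finset.univ.filter (fun j => a j = false)).card = 0 ∧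
      (Finset.univ.filter (fun j => b j = false)).card = 0 := by omega
  rw [Finset.card_eq_zero, Finset.card_eq_zero] at hz
  have ha : ∀ j, a j = true := by
    intro j
    by_contra h
    have : j ∈ Finset.univ.filter (fun j => a j = false) := by
      rw [Finset.mem_filter]
      exact ⟨Finset.mem_univ _, by simpa using h⟩
    rw [hz.1] at this
    exact absurd this (Finset.notMem_empty _)
  have hb : ∀ j, b j = true := by
    intro j
    by_contra h
    have : j ∈ Finset.univ.filter (fun j => b j = false) := by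
      rw [Finset.mem_filter]
      exact ⟨Finset.mem_univ _, by simpa using h⟩
    rw [hz.2] at this
    exact absurd this (Finset.notMem_empty _)
  have hpos : ∀ j, ∀ s ∈ Icc (0 : ℝ) 1, 0 < g j s := by
    intro j s hs
    rcases eq_or_lt_of_le hs.1 with h | h
    · rw [← h, h0, ha]
      simp [endv]
    rcases eq_or_lt_of_le hs.2 with h' | h'
    · rw [h', h1, hb]
      simp [endv]
    exact (hm j s ⟨h, h'⟩).1
  have hev : ∀ᶠ t in 𝓝[>] (0 : ℝ), ∀ j, ∀ s ∈ Icc (0 : ℝ) 1, t < g j s := by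
    rw [eventually_all]
    intro j
    obtain ⟨s0, hs0, hmin⟩ := isCompact_Icc.exists_isMinOn ⟨0, left_mem_Icc.2 zero_le_one⟩ (hc j)
    have h2 : ∀ᶠ t in 𝓝 (0 : ℝ), t < g j s0 := eventually_lt_nhds (hpos j s0 hs0)
    filter_upwards [eventually_nhdsWithin_of_eventually_nhds h2] with t ht s hs
    exact lt_of_lt_of_le ht (hmin hs)
  have hev2 : ∀ᶠ t in 𝓝[>] (0 : ℝ), t ∈ Ioo (0 : ℝ) 1 := Ioo_mem_nhdsGT one_pos
  obtain ⟨t, ht, ht1⟩ := (hev.and hev2).exists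
  obtain ⟨hfin, hsum⟩ := hcount t ht1
  have : ∑ j, {s : ℝ | s ∈ Ioo (0 : ℝ) 1 ∧ g j s = t}.ncard = 0 := by
    refine Finset.sum_eq_zero fun j _ => ?_
    have : {s : ℝ | s ∈ Ioo (0 : ℝ) 1 ∧ g j s = t} = ∅ := by
      rw [eq_empty_iff_forall_notMem]
      rintro s ⟨hs, hst⟩
      exact absurd hst (ht j s (Ioo_subset_Icc_self hs)).ne'
    rw [this, ncard_empty]
  omega

lemma local_mod (g : J → ℝ → ℝ) (a b : J → Bool) (k : ℕ)
    (hc : ∀ j, ContinuousOn (g j) (Icc 0 1)) (h0 : ∀ j, g j 0 = endv (a j))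
    (h1 : ∀ j, g j 1 = endv (b j))
    (hcount : ∀ t ∈ Ioo (0 : ℝ) 1, (∀ j, {s : ℝ | s ∈ Ioo (0 : ℝ) 1 ∧ g j s = t}.Finite) ∧
        ∑ j, {s : ℝ | s ∈ Ioo (0 : ℝ) 1 ∧ g j s = t}.ncard = k) :
    ((Finset.univ.filter (fun j => a j = false)).card +
      (Finset.univ.filter (fun j => b j = false)).card) % 2 = k % 2 := by
  classical
  have hC : (⋃ j, ({t : ℝ | ∃ s, g j s = t ∧ IsLocalMax (g j) s} ∪
      {t : ℝ | ∃ s, g j s = t ∧ IsLocalMin (g j) s})).Countable :=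
    countable_iUnion fun j => (countable_localMax (g j)).union (countable_localMin (g j))
  obtain ⟨t, ht, htC⟩ := (hC.dense_compl ℝ).exists_mem_open isOpen_Ioo
    (show (Ioo (0 : ℝ) 1).Nonempty from ⟨1 / 2, by norm_num, by norm_num⟩)
  obtain ⟨hfin, hsum⟩ := hcount t htC
  rw [← hsum, Finset.card_filter, Finset.card_filter, ← Finset.sum_add_distrib,
    Finset.sum_nat_mod]
  conv_rhs => rw [Finset.sum_nat_mod]
  congr 1
  refine Finset.sum_congr rfl fun j _ => ?_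
  have hext : ∀ s ∈ Ioo (0 : ℝ) 1, g j s = t → ¬ IsLocalMin (g j) s ∧ ¬ IsLocalMax (g j) s := by
    intro s _ hst
    constructor
    · intro h
      exact ht (mem_iUnion.2 ⟨j, Or.inr ⟨s, hst, h⟩⟩)
    · intro h
      exact ht (mem_iUnion.2 ⟨j, Or.inl ⟨s, hst, h⟩⟩)
  have hv : ∀ c : Bool, endv c ≠ t := by
    intro c
    cases c
    · simp only [endv, Bool.false_eq_true, if_false]
      exact htC.1.ne
    · simp only [endv, if_true]
      exact htC.2.ne'
  have hp := parity_aux (g j) 0 t (by rw [h0]; exact hv _) _ 1 one_pos (hc j)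
    (by rw [h1]; exact hv _) (hfin j) rfl hext
  rw [h0, h1] at hp
  have e1 : 0 < t := htC.1
  have e2 : 0 < 1 - t := by linarith [htC.2]
  have e3 : ¬ (0 < -t * (1 - t)) := by
    rw [not_lt]
    exact mul_nonpos_of_nonpos_of_nonneg (by linarith) e2.le
  have e4 : ¬ (0 < (1 - t) * -t) := by
    rw [not_lt]
    exact mul_nonpos_of_nonneg_of_nonpos e2.le (by linarith)
  have e5 : 0 < t * t := mul_pos e1 e1
  have e6 : 0 < (1 - t) * (1 - t) := mul_pos e2 e2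
  cases ha : a j <;> cases hb : b j <;>
    simp only [ha, hb, endv, if_true, Bool.false_eq_true, Bool.true_eq_false, if_false, zero_sub,
      e3, e4, e6, iff_false, iff_true, neg_mul_neg, e5] at hp ⊢
  · rw [Nat.even_iff] at hp
    omega
  · rw [Nat.not_even_iff] at hp
    omega
  · rw [Nat.not_even_iff] at hp
    omega
  · rw [Nat.even_iff] at hp
    omega

lemma side_endv (c b : Bool) : side c (endv b) = endv (xor c b) := by
  cases c <;> cases b <;> simp [side, endv]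

/-- the conditions on the germs, necessary -/
theorem local_conditions (g : J → ℝ → ℝ) (a b : J → Bool) (k : ℕ) (hk : 1 ≤ k)
    (hc : ∀ j, ContinuousOn (g j) (Icc 0 1)) (h0 : ∀ j, g j 0 = endv (a j))
    (h1 : ∀ j, g j 1 = endv (b j)) (hm : ∀ j, ∀ s ∈ Ioo (0 : ℝ) 1, g j s ∈ Ioo (0 : ℝ) 1)
    (hcount : ∀ t ∈ Ioo (0 : ℝ) 1, (∀ j, {s : ℝ | s ∈ Ioo (0 : ℝ) 1 ∧ g j s = t}.Finite) ∧
        ∑ j, {s : ℝ | s ∈ Ioo (0 : ℝ) 1 ∧ g j s = t}.ncard = k) (c : Bool) :
    1 ≤ (Finset.univ.filter (fun j => a j = c)).card +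
        (Finset.univ.filter (fun j => b j = c)).card ∧
      (Finset.univ.filter (fun j => a j = c)).card +
        (Finset.univ.filter (fun j => b j = c)).card ≤ k ∧
      ((Finset.univ.filter (fun j => a j = c)).card +
        (Finset.univ.filter (fun j => b j = c)).card) % 2 = k % 2 := by
  have hset : ∀ t, ∀ j, {s : ℝ | s ∈ Ioo (0 : ℝ) 1 ∧ side c (g j s) = t} =
      {s : ℝ | s ∈ Ioo (0 : ℝ) 1 ∧ g j s = side c t} := by
    intro t j
    ext s
    simp only [mem_ofPred_eq]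
    constructor
    · rintro ⟨h, h'⟩
      exact ⟨h, by rw [← h', side_side]⟩
    · rintro ⟨h, h'⟩
      exact ⟨h, by rw [h', side_side]⟩
  have h0' : ∀ j, side c (g j 0) = endv (xor c (a j)) := fun j => by rw [h0, side_endv]
  have h1' : ∀ j, side c (g j 1) = endv (xor c (b j)) := fun j => by rw [h1, side_endv]
  have hc' : ∀ j, ContinuousOn (fun s => side c (g j s)) (Icc 0 1) :=
    fun j => (side_cont c).comp_continuousOn (hc j)
  have hm' : ∀ j, ∀ s ∈ Ioo (0 : ℝ) 1, side c (g j s) ∈ Ioo (0 : ℝ) 1 :=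
    fun j s hs => side_mem (hm j s hs)
  have hcount' : ∀ t ∈ Ioo (0 : ℝ) 1,
      (∀ j, {s : ℝ | s ∈ Ioo (0 : ℝ) 1 ∧ side c (g j s) = t}.Finite) ∧
        ∑ j, {s : ℝ | s ∈ Ioo (0 : ℝ) 1 ∧ side c (g j s) = t}.ncard = k := by
    intro t ht
    simp only [hset]
    exact hcount _ (side_mem ht)
  have e : ∀ (f : J → Bool), Finset.univ.filter (fun j => xor c (f j) = false) =
      Finset.univ.filter (fun j => f j = c) := by
    intro f
    ext j
    rw [Finset.mem_filter, Finset.mem_filter]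
    cases c <;> cases f j <;> simp
  have r1 := local_ge _ _ _ k hk hc' h0' h1' hm' hcount'
  have r2 := local_le _ _ _ k hc' h0' h1' hm' hcount'
  have r3 := local_mod _ _ _ k hc' h0' h1' hcount'
  rw [e, e] at r1 r2 r3
  exact ⟨r1, r2, r3⟩

end Pool.Agent.W620.KT
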