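import Pool.Agent.W620.KT.Basic

open Set Topology Filter

namespace Pool.Agent.W620.KT

universe u v w x y z

variable {V : Type u} {E : Type v} {X : Type w} [TopologicalSpace X]

/-- the `j`-th point on the edge `e`, for `0 ≤ j ≤ n e + 1`, when the edge `e` is subdivided by
`n e` new vertices: the first end of `e`, the new vertices in their order, the second end -/
def MGraph.pt (G : MGraph V E) (n : E → ℕ) (e : E) (j : ℕ) : V ⊕ (Σ e, Fin (n e)) :=
  if j = 0 then Sum.inl (G.fst e)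
  else if h : j - 1 < n e then Sum.inr ⟨e, ⟨j - 1, h⟩⟩ else Sum.inl (G.snd e)

/-- the subdivision of `G` with `n e` new vertices on the edge `e` -/
def MGraph.sub (G : MGraph V E) (n : E → ℕ) : MGraph (V ⊕ (Σ e, Fin (n e))) (Σ e, Fin (n e + 1)) where
  fst := fun ε => G.pt n ε.1 ε.2
  snd := fun ε => G.pt n ε.1 (ε.2 + 1)

/-- positions of the new vertices on the edges -/
structure Pos (n : E → ℕ) (p : E → ℕ → ℝ) : Prop where
  zero : ∀ e, p e 0 = 0
  one : ∀ e, p e (n e + 1) = 1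
  mono : ∀ e i j, i < j → j ≤ n e + 1 → p e i < p e j

lemma Pos.mem_Ioo {n : E → ℕ} {p : E → ℕ → ℝ} (h : Pos n p) {e : E} {j : ℕ} (h0 : j ≠ 0)
    (h1 : j < n e + 1) : p e j ∈ Ioo (0 : ℝ) 1 := by
  constructor
  · rw [← h.zero e]
    exact h.mono e 0 j (Nat.pos_of_ne_zero h0) h1.le
  · rw [← h.one e]
    exact h.mono e j _ h1 le_rfl

lemma Pos.mem_Icc {n : E → ℕ} {p : E → ℕ → ℝ} (h : Pos n p) {e : E} {j : ℕ}
    (h1 : j ≤ n e + 1) : p e j ∈ Icc (0 : ℝ) 1 := by
  rcases Nat.eq_zero_or_pos j with h0 | h0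
  · rw [h0, h.zero]
    simp
  · rcases eq_or_lt_of_le h1 with h2 | h2
    · rw [h2, h.one]
      simp
    · exact Ioo_subset_Icc_self (h.mem_Ioo h0.ne' h2)

lemma Pos.seg {n : E → ℕ} {p : E → ℕ → ℝ} (h : Pos n p) {e : E} {j : ℕ} (hj : j < n e + 1)
    {t : ℝ} (ht : t ∈ Icc (0 : ℝ) 1) :
    p e j + t * (p e (j + 1) - p e j) ∈ Icc (p e j) (p e (j + 1)) := by
  have h1 := h.mono e j (j + 1) (Nat.lt_succ_self _) hj
  have h2 := ht.1
  have h3 := ht.2
  constructor
  · nlinarith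
  · nlinarith

lemma Pos.seg_open {n : E → ℕ} {p : E → ℕ → ℝ} (h : Pos n p) {e : E} {j : ℕ} (hj : j < n e + 1)
    {t : ℝ} (ht : t ∈ Ioo (0 : ℝ) 1) :
    p e j + t * (p e (j + 1) - p e j) ∈ Ioo (p e j) (p e (j + 1)) := by
  have h1 := h.mono e j (j + 1) (Nat.lt_succ_self _) hj
  have h2 := ht.1
  have h3 := ht.2
  constructor
  · nlinarith
  · nlinarith

lemma Pos.seg_Ioo {n : E → ℕ} {p : E → ℕ → ℝ} (h : Pos n p) {e : E} {j : ℕ} (hj : j < n e + 1)
    {t : ℝ} (ht : t ∈ Ioo (0 : ℝ) 1) :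
    p e j + t * (p e (j + 1) - p e j) ∈ Ioo (0 : ℝ) 1 := by
  have h1 := h.seg_open hj ht
  have h2 := (h.mem_Icc (e := e) hj.le).1
  have h3 := (h.mem_Icc (e := e) (j := j + 1) hj).2
  exact ⟨lt_of_le_of_lt h2 h1.1, lt_of_lt_of_le h1.2 h3⟩

/-- an open segment contains no position -/
lemma Pos.not_mem_seg {n : E → ℕ} {p : E → ℕ → ℝ} (h : Pos n p) {e : E} {i j : ℕ}
    (hj : j < n e + 1) (hi : i ≤ n e + 1) : p e i ∉ Ioo (p e j) (p e (j + 1)) := by
  rintro ⟨h1, h2⟩
  rcases Nat.lt_or_ge j i with h3 | h3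
  · rcases Nat.eq_or_lt_of_le (Nat.succ_le_of_lt h3) with h4 | h4
    · rw [Nat.succ_eq_add_one] at h4
      rw [h4] at h2
      exact lt_irrefl _ h2
    · exact lt_asymm h2 (h.mono e _ _ h4 hi)
  · rcases Nat.eq_or_lt_of_le h3 with h4 | h4
    · rw [h4] at h1
      exact lt_irrefl _ h1
    · exact lt_asymm h1 (h.mono e _ _ h4 (by omega))

lemma Pos.seg_unique {n : E → ℕ} {p : E → ℕ → ℝ} (h : Pos n p) {e : E} {i j : ℕ}
    (hi : i < n e + 1) (hj : j < n e + 1) {x : ℝ} (h1 : x ∈ Ioo (p e i) (p e (i + 1)))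
    (h2 : x ∈ Ioo (p e j) (p e (j + 1))) : i = j := by
  have key : ∀ i j : ℕ, i < n e + 1 → j < n e + 1 → x ∈ Ioo (p e i) (p e (i + 1)) →
      x ∈ Ioo (p e j) (p e (j + 1)) → ¬ i < j := by
    intro i j hi hj h1 h2 hij
    rcases Nat.eq_or_lt_of_le (Nat.succ_le_of_lt hij) with h4 | h4
    · rw [Nat.succ_eq_add_one] at h4
      rw [← h4] at h2
      exact lt_asymm h1.2 h2.1
    · have := h.mono e _ _ h4 hj.le
      exact lt_asymm h1.2 (this.trans h2.1)
  have k1 := key i j hi hj h1 h2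
  have k2 := key j i hj hi h2 h1
  omega

namespace GSpace

variable {G : MGraph V E} (R : GSpace G X)

/-- the vertices of the subdivision -/
def subVert (n : E → ℕ) (p : E → ℕ → ℝ) : V ⊕ (Σ e, Fin (n e)) → X :=
  Sum.elim R.vert (fun q => R.edge q.1 (p q.1 (q.2 + 1)))

lemma subVert_pt {n : E → ℕ} {p : E → ℕ → ℝ} (h : Pos n p) (e : E) {j : ℕ} (hj : j ≤ n e + 1) :
    R.subVert n p (G.pt n e j) = R.edge e (p e j) := by
  unfold MGraph.pt
  split_ifs with h1 h2
  · rw [h1, h.zero, R.edge_zero]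
    rfl
  · simp only [subVert, Sum.elim_inr]
    congr 2
    omega
  · have : j = n e + 1 := by omega
    rw [this, h.one, R.edge_one]
    rfl

/-- the structure of topological graph given by a subdivision -/
noncomputable def sub {n : E → ℕ} {p : E → ℕ → ℝ} (h : Pos n p) : GSpace (G.sub n) X where
  vert := R.subVert n p
  edge := fun ε t => R.edge ε.1 (p ε.1 ε.2 + t * (p ε.1 (ε.2 + 1) - p ε.1 ε.2))
  cont := by
    rintro ⟨e, j, hj⟩
    refine (R.cont e).comp (by fun_prop) ?_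
    intro t ht
    have h1 := h.seg hj ht
    exact ⟨(h.mem_Icc (e := e) hj.le).1.trans h1.1,
      h1.2.trans (h.mem_Icc (e := e) (j := j + 1) hj).2⟩
  vert_inj := by
    rintro (v | ⟨e, j, hj⟩) (v' | ⟨e', j', hj'⟩) hvv
    · simp only [subVert, Sum.elim_inl] at hvv
      rw [R.vert_inj hvv]
    · simp only [subVert, Sum.elim_inl, Sum.elim_inr] at hvv
      exact absurd hvv.symm (R.edge_ne _ _ _ (h.mem_Ioo (by omega) (by omega)))
    · simp only [subVert, Sum.elim_inl, Sum.elim_inr] at hvv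
      exact absurd hvv (R.edge_ne _ _ _ (h.mem_Ioo (by omega) (by omega)))
    · simp only [subVert, Sum.elim_inr] at hvv
      obtain ⟨h1, h2⟩ := R.edge_inj _ _ _ _ (h.mem_Ioo (by omega) (by omega))
        (h.mem_Ioo (by omega) (by omega)) hvv
      subst h1
      have h3 : j = j' := by
        rcases lt_trichotomy j j' with h4 | h4 | h4
        · exact absurd h2 (h.mono e (j + 1) (j' + 1) (by omega) (by omega)).ne
        · exact h4
        · exact absurd h2 (h.mono e (j' + 1) (j + 1) (by omega) (by omega)).ne'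
      subst h3
      rfl
  edge_zero := by
    rintro ⟨e, j, hj⟩
    simp only [zero_mul, add_zero]
    exact (R.subVert_pt h e hj.le).symm
  edge_one := by
    rintro ⟨e, j, hj⟩
    simp only [one_mul, add_sub_cancel]
    exact (R.subVert_pt h e hj).symm
  edge_inj := by
    rintro ⟨e, j, hj⟩ ⟨e', j', hj'⟩ s t hs ht hst
    simp only at hst
    obtain ⟨h1, h2⟩ := R.edge_inj _ _ _ _ (h.seg_Ioo hj hs) (h.seg_Ioo hj' ht) hst
    subst h1
    have h3 := h.seg_open hj hs
    have h4 := h.seg_open hj' ht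
    rw [h2] at h3
    have h5 := h.seg_unique hj hj' h3 h4
    subst h5
    refine ⟨rfl, ?_⟩
    have h6 : s * (p e (j + 1) - p e j) = t * (p e (j + 1) - p e j) := by linarith
    have h7 : p e (j + 1) - p e j ≠ 0 :=
      sub_ne_zero.2 (h.mono e j (j + 1) (Nat.lt_succ_self _) hj).ne'
    exact mul_right_cancel₀ h7 h6
  edge_ne := by
    rintro ⟨e, j, hj⟩ s (v | ⟨e', j', hj'⟩) hs
    · exact R.edge_ne _ _ _ (h.seg_Ioo hj hs)
    · simp only [subVert, Sum.elim_inr]
      intro heq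
      obtain ⟨h1, h2⟩ := R.edge_inj _ _ _ _ (h.seg_Ioo hj hs)
        (h.mem_Ioo (by omega) (by omega)) heq
      subst h1
      have h3 := h.seg_open hj hs
      rw [h2] at h3
      exact h.not_mem_seg hj (by omega) h3
  cover := by
    classical
    intro x
    rcases R.cover x with ⟨v, rfl⟩ | ⟨e, s, hs, rfl⟩
    · exact Or.inl ⟨Sum.inl v, rfl⟩
    · have hex : ∃ j, j ≤ n e + 1 ∧ s < p e j := ⟨n e + 1, le_rfl, by rw [h.one]; exact hs.2⟩
      obtain ⟨hj1, hj2⟩ := Nat.find_spec hex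
      have hmin := fun i (hi : i < Nat.find hex) => Nat.find_min hex hi
      set j := Nat.find hex with hjdef
      have hj0 : j ≠ 0 := by
        intro h0
        rw [h0, h.zero] at hj2
        exact lt_asymm hj2 hs.1
      obtain ⟨i, hi⟩ := Nat.exists_eq_succ_of_ne_zero hj0
      have hi1 : i < n e + 1 := by omega
      have hle : p e i ≤ s := by
        by_contra hcon
        exact hmin i (by omega) ⟨hi1.le, not_le.1 hcon⟩
      rw [hi, Nat.succ_eq_add_one] at hj2
      rcases eq_or_lt_of_le hle with h1 | h1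
      · have hi0 : i ≠ 0 := by
          intro h0
          rw [h0, h.zero] at h1
          exact hs.1.ne h1
        refine Or.inl ⟨Sum.inr ⟨e, ⟨i - 1, by omega⟩⟩, ?_⟩
        simp only [subVert, Sum.elim_inr]
        rw [← h1]
        congr 2
        omega
      · have hd : 0 < p e (i + 1) - p e i := by linarith
        refine Or.inr ⟨⟨e, ⟨i, hi1⟩⟩, (s - p e i) / (p e (i + 1) - p e i), ⟨?_, ?_⟩, ?_⟩
        · exact div_pos (by linarith) hd
        · rw [div_lt_one hd]
          linarith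
        · simp only
          congr 1
          field_simp
          ring

end GSpace

/-- the positions given by a finite set -/
noncomputable def posOf (S : Finset ℝ) (j : ℕ) : ℝ :=
  if j = 0 then 0 else if h : j - 1 < S.card then S.orderEmbOfFin rfl ⟨j - 1, h⟩ else 1

lemma pos_posOf {S : E → Finset ℝ} (hS : ∀ e, ∀ s ∈ S e, s ∈ Ioo (0 : ℝ) 1) :
    Pos (fun e => (S e).card) (fun e => posOf (S e)) where
  zero := fun e => by simp [posOf]
  one := fun e => by simp [posOf]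
  mono := by
    intro e i j hij hj
    simp only [posOf]
    have hj0 : j ≠ 0 := by omega
    have hmem : ∀ (k : ℕ) (h : k < (S e).card), (S e).orderEmbOfFin rfl ⟨k, h⟩ ∈ Ioo (0 : ℝ) 1 :=
      fun k h => hS e _ (Finset.orderEmbOfFin_mem _ _ _)
    rw [if_neg hj0]
    by_cases hi0 : i = 0
    · rw [if_pos hi0]
      split_ifs with h1
      · exact (hmem _ h1).1
      · norm_num
    · rw [if_neg hi0]
      have hi1 : i - 1 < (S e).card := by omega
      rw [dif_pos hi1]
      split_ifs with h1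
      · apply ((S e).orderEmbOfFin rfl).strictMono
        rw [Fin.mk_lt_mk]
        omega
      · exact (hmem _ hi1).2

lemma posOf_mem {S : Finset ℝ} {s : ℝ} : (∃ j : Fin S.card, posOf S (j + 1) = s) ↔ s ∈ S := by
  constructor
  · rintro ⟨⟨j, hj⟩, rfl⟩
    simp only [posOf]
    rw [if_neg (by omega), dif_pos (by omega)]
    exact Finset.orderEmbOfFin_mem _ _ _
  · intro hs
    have : s ∈ Set.range (S.orderEmbOfFin rfl) := by
      rw [Finset.range_orderEmbOfFin]
      exact hs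
    obtain ⟨⟨j, hj⟩, hjs⟩ := this
    refine ⟨⟨j, hj⟩, ?_⟩
    simp only [posOf]
    rw [if_neg (by omega), dif_pos (by omega)]
    exact hjs

/-- the vertices of the subdivision given by finite subsets of the edges -/
lemma sub_vert_iff {G : MGraph V E} (R : GSpace G X) {S : E → Finset ℝ}
    (hS : ∀ e, ∀ s ∈ S e, s ∈ Ioo (0 : ℝ) 1) (x : X) :
    (∃ v, (R.sub (pos_posOf hS)).vert v = x) ↔
      (∃ v, R.vert v = x) ∨ ∃ e, ∃ s ∈ S e, R.edge e s = x := by
  constructor
  · rintro ⟨v | ⟨e, j⟩, rfl⟩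
    · exact Or.inl ⟨v, rfl⟩
    · exact Or.inr ⟨e, _, posOf_mem.1 ⟨j, rfl⟩, rfl⟩
  · rintro (⟨v, rfl⟩ | ⟨e, s, hs, rfl⟩)
    · exact ⟨Sum.inl v, rfl⟩
    · obtain ⟨j, hj⟩ := posOf_mem.2 hs
      exact ⟨Sum.inr ⟨e, j⟩, by rw [← hj]; rfl⟩

end Pool.Agent.W620.KT
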