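import Pool.Agent.W620.KT.Fibre
import Pool.Agent.W620.KT.Family

open Set Topology Filter

namespace Pool.Agent.W620.KT

universe u v w x y z

variable {V : Type u} {E : Type v} {V' : Type x} {E' : Type y}
variable {G : MGraph V E} {H : MGraph V' E'} {X : Type w} {Y : Type z} [TopologicalSpace X]
  [TopologicalSpace Y]

theorem sufficiency [Fintype V] [Fintype E] [DecidableEq V'] [DecidableEq E']
    [T2Space X] (k : ℕ) (R : GSpace G X) (S : GSpace H Y) {φ : V → V'} {ψ : E → E'}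
    {a b : E → Bool} (hP : PsiCond k G H φ ψ a b) :
    ∃ f : X → Y, Continuous f ∧ ∀ y, (f ⁻¹' {y}).ncard = k := by
  classical
  have hfam : ∀ η, ∃ g : {ε // ψ ε = η} → ℝ → ℝ, (∀ j, ContinuousOn (g j) (Icc 0 1)) ∧
      (∀ j, g j 0 = endv (a j.1)) ∧
      (∀ j, g j 1 = endv (b j.1)) ∧ (∀ j, ∀ s ∈ Ioo (0 : ℝ) 1, g j s ∈ Ioo (0 : ℝ) 1) ∧
      (∀ t ∈ Ioo (0 : ℝ) 1, (∀ j, {s : ℝ | s ∈ Ioo (0 : ℝ) 1 ∧ g j s = t}.Finite) ∧
        ∑ j, {s : ℝ | s ∈ Ioo (0 : ℝ) 1 ∧ g j s = t}.ncard = k) := by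
    intro η
    refine arc_family (fun j : {ε // ψ ε = η} => a j.1) (fun j => b j.1) k ?_
    intro c
    rw [card_sub, card_sub]
    exact hP.ger η c
  choose g0 hgc0 hg00 hg10 hgm0 hgn0 using hfam
  set g : E → ℝ → ℝ := fun ε => g0 (ψ ε) ⟨ε, rfl⟩ with hg
  have hgj : ∀ η (j : {ε // ψ ε = η}), g0 η j = g j.1 := by
    rintro η ⟨ε, rfl⟩
    rfl
  have hgc : ∀ ε, ContinuousOn (g ε) (Icc 0 1) := fun ε => hgc0 _ _
  have hg0 : ∀ ε, g ε 0 = endv (a ε) := fun ε => hg00 _ _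
  have hg1 : ∀ ε, g ε 1 = endv (b ε) := fun ε => hg10 _ _
  have hgm : ∀ ε, ∀ s ∈ Ioo (0 : ℝ) 1, g ε s ∈ Ioo (0 : ℝ) 1 := fun ε => hgm0 _ _
  have hgI : ∀ ε, ∀ s ∈ Icc (0 : ℝ) 1, g ε s ∈ Icc (0 : ℝ) 1 := by
    intro ε s hs
    rcases Icc_cases hs with h | h | h
    · rw [h, hg0]
      unfold endv
      split_ifs <;> simp
    · rw [h, hg1]
      unfold endv
      split_ifs <;> simp
    · exact Ioo_subset_Icc_self (hgm ε s h)
  have hex : ∀ x, ∃ y, (∀ v, R.vert v = x → y = S.vert (φ v)) ∧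
      (∀ ε, ∀ s ∈ Ioo (0 : ℝ) 1, R.edge ε s = x → y = S.edge (ψ ε) (g ε s)) := by
    intro x
    rcases R.cover x with ⟨v, rfl⟩ | ⟨ε, s, hs, rfl⟩
    · refine ⟨S.vert (φ v), ?_, ?_⟩
      · intro v' hv'
        rw [R.vert_inj hv']
      · intro ε s hs h
        exact absurd h (R.edge_ne ε s v hs)
    · refine ⟨S.edge (ψ ε) (g ε s), ?_, ?_⟩
      · intro v hv
        exact absurd hv.symm (R.edge_ne ε s v hs)
      · intro ε' s' hs' h
        obtain ⟨rfl, rfl⟩ := R.edge_inj _ _ _ _ hs' hs h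
        rfl
  choose f hfv hfe using hex
  have hfv' : ∀ v, f (R.vert v) = S.vert (φ v) := fun v => hfv _ v rfl
  have hfe' : ∀ ε, ∀ s ∈ Ioo (0 : ℝ) 1, f (R.edge ε s) = S.edge (ψ ε) (g ε s) :=
    fun ε s hs => hfe _ ε s hs rfl
  have hfI : ∀ ε, ∀ s ∈ Icc (0 : ℝ) 1, f (R.edge ε s) = S.edge (ψ ε) (g ε s) := by
    intro ε s hs
    rcases Icc_cases hs with h | h | h
    · rw [h, hg0, S.edge_endv, R.edge_zero, hfv', hP.efst]
    · rw [h, hg1, S.edge_endv, R.edge_one, hfv', hP.esnd]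
    · exact hfe' ε s h
  refine ⟨f, ?_, ?_⟩
  · refine R.continuous_of f fun ε => ?_
    refine ContinuousOn.congr (f := fun s => S.edge (ψ ε) (g ε s)) ?_ (hfI ε)
    exact (S.cont _).comp (hgc ε) (hgI ε)
  · intro y
    rcases S.cover y with ⟨w, rfl⟩ | ⟨η, t, ht, rfl⟩
    · have h2 : f ⁻¹' {S.vert w} = R.vert '' {v | φ v = w} := by
        ext x
        simp only [mem_preimage, mem_singleton_iff, mem_image, mem_ofPred_eq]
        constructor
        · intro hx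
          rcases R.cover x with ⟨v, rfl⟩ | ⟨ε, s, hs, rfl⟩
          · rw [hfv'] at hx
            exact ⟨v, S.vert_inj hx, rfl⟩
          · rw [hfe' ε s hs] at hx
            exact absurd hx (S.edge_ne _ _ _ (hgm ε s hs))
        · rintro ⟨v, hv, rfl⟩
          rw [hfv', hv]
      rw [h2, ncard_image_of_injective _ R.vert_inj, ← hP.fib w, ← ncard_coe_finset]
      congr 1
      ext v
      simp
    · obtain ⟨e⟩ := fibre_bij R S f ψ g hfe' hgm (fun v => ⟨φ v, hfv' v⟩) η ht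
      obtain ⟨hfin, hsum⟩ := hgn0 η t ht
      have h4 := Nat.card_congr e
      have hfj : ∀ j : {ε // ψ ε = η}, Finite {s : ℝ | s ∈ Ioo (0 : ℝ) 1 ∧ g j.1 s = t} := by
        intro j
        have := hfin j
        rw [hgj] at this
        exact this
      rw [Nat.card_sigma, Nat.card_coe_set_eq] at h4
      rw [← h4, ← hsum]
      refine Finset.sum_congr rfl fun j _ => ?_
      rw [Nat.card_coe_set_eq, hgj]

end Pool.Agent.W620.KT
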