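import Pool.Agent.W620.KT.Nec
import Pool.Agent.W620.KT.Suf
import Pool.Agent.W620.KT.Sub
import Pool.Agent.W620.KT.Comb

open Set Topology

namespace Pool.Agent.W620.KT

universe u v w x y z

variable {V : Type u} {E : Type v} {V' : Type x} {E' : Type y}

lemma pt_inj {H : MGraph V E} (hH : ∀ e, H.fst e ≠ H.snd e) {n : E → ℕ} {e : E} {i j : ℕ}
    (hi : i ≤ n e + 1) (hj : j ≤ n e + 1) (h : H.pt n e i = H.pt n e j) : i = j := by
  unfold MGraph.pt at h
  split_ifs at h with h1 h2 h3 h4 h5 h6 h7 h8
  · omega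
  · exact absurd (Sum.inl_injective h) (hH e)
  · simp only [Sum.inr.injEq, Sigma.mk.injEq, heq_eq_eq, true_and, Fin.mk.injEq] at h
    omega
  · exact absurd (Sum.inl_injective h).symm (hH e)
  · omega

lemma pt_edge {H : MGraph V E} {n : E → ℕ} {e e' : E} {i j : ℕ}
    (hi0 : i ≠ 0) (hi : i < n e + 1) (h : H.pt n e i = H.pt n e' j) : e = e' := by
  unfold MGraph.pt at h
  rw [if_neg hi0, dif_pos (by omega)] at h
  split_ifs at h with h1 h2
  simp only [Sum.inr.injEq, Sigma.mk.injEq] at h
  exact h.1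

lemma endp_sub {H : MGraph V E} {n : E → ℕ} (ε : Σ e, Fin (n e + 1)) (c : Bool) :
    (H.sub n).endp ε c = H.pt n ε.1 (ε.2 + c.toNat) := by
  cases c <;> rfl

lemma sub_simple {H : MGraph V E} (hH : ∀ e, H.fst e ≠ H.snd e) {n : E → ℕ}
    (hn : ∀ e, 1 ≤ n e) : (H.sub n).Simple where
  ne := by
    rintro ⟨e, i, hi⟩ c c' h
    rw [endp_sub, endp_sub] at h
    simp only at h
    have hc : c.toNat ≤ 1 := Bool.toNat_le c
    have hc' : c'.toNat ≤ 1 := Bool.toNat_le c'
    have := pt_inj hH (by omega) (by omega) h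
    cases c <;> cases c' <;> simp_all
  uniq := by
    rintro ⟨e, i, hi⟩ ⟨e', j, hj⟩ c c' h1 h2
    rw [endp_sub, endp_sub] at h1 h2
    simp only at h1 h2
    have hn' := hn e
    have he : e = e' := by
      cases c
      · simp only [Bool.toNat_false, Bool.not_false, Bool.toNat_true, add_zero] at h1 h2
        rcases Nat.eq_zero_or_pos i with h0 | h0
        · exact pt_edge (by omega) (by omega) h2
        · exact pt_edge (by omega) (by omega) h1
      · simp only [Bool.toNat_true, Bool.not_true, Bool.toNat_false, add_zero] at h1 h2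
        rcases Nat.eq_zero_or_pos i with h0 | h0
        · exact pt_edge (by omega) (by omega) h1
        · exact pt_edge (by omega) (by omega) h2
    subst he
    have e1 : c.toNat + (!c).toNat = 1 := by cases c <;> rfl
    have e2 : c'.toNat + (!c').toNat = 1 := by cases c' <;> rfl
    have h3 := pt_inj hH (by omega) (by omega) h1
    have h4 := pt_inj hH (by omega) (by omega) h2
    have h5 : i = j := by omega
    subst h5
    rfl

lemma pos_equi (m : E → ℕ) : Pos m (fun e j => (j : ℝ) / (m e + 1)) where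
  zero := fun e => by simp
  one := fun e => by
    push_cast
    exact div_self (by positivity)
  mono := by
    intro e i j hij _
    have : (i : ℝ) < j := by exact_mod_cast hij
    gcongr

variable {G : MGraph V E} {H : MGraph V' E'} {X : Type w} {Y : Type z} [TopologicalSpace X]
  [TopologicalSpace Y]

/-- sufficiency, for admissible vertex maps of subdivisions -/
theorem suff [Fintype V] [Fintype E] [Fintype V'] [Fintype E'] [T2Space X] (k : ℕ) (hk : 1 ≤ k)
    (R : GSpace G X) (S : GSpace H Y) (hH : H.Simple) {φ : V → V'} (hA : Admissible k G H φ) :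
    ∃ f : X → Y, Continuous f ∧ ∀ y, (f ⁻¹' {y}).ncard = k := by
  classical
  obtain ⟨ψ, a, b, hP⟩ := psi_of_admissible hH hk hA
  exact sufficiency k R S hP

/-- necessity, for maps compatible with the vertices -/
theorem nec [Fintype V] [Fintype E] [Fintype V'] [Fintype E'] [T2Space Y] (k : ℕ) (hk : 1 ≤ k)
    (R : GSpace G X) (S : GSpace H Y) (hH : H.Simple) {f : X → Y} (hf : Continuous f)
    (hfib : ∀ y, (f ⁻¹' {y}).ncard = k)
    (hv : ∀ x, (∃ v, R.vert v = x) ↔ ∃ w, S.vert w = f x) :
    ∃ φ, Admissible k G H φ := by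
  classical
  have hH' : ∀ η, H.fst η ≠ H.snd η := by
    intro η h
    have := hH.ne η false true h
    simp at this
  obtain ⟨φ, ψ, a, b, hP⟩ := necessity k hk R S hH' hf hfib hv
  exact ⟨φ, admissible_of_psi hH hP⟩

theorem criterion [Fintype V] [Fintype E] [Fintype V'] [Fintype E'] [T2Space X] [T2Space Y]
    (k : ℕ) (hk : 1 ≤ k) (hH : ∀ e, H.fst e ≠ H.snd e) (R : GSpace G X) (S : GSpace H Y) :
    (∃ f : X → Y, Continuous f ∧ ∀ y, (f ⁻¹' {y}).ncard = k) ↔
      ∃ (m : E → ℕ) (n : E' → ℕ), (∀ e, 1 ≤ n e) ∧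
        ∑ e, n e ≤ Fintype.card V + Fintype.card E' ∧
        ∃ φ, Admissible k (G.sub m) (H.sub n) φ := by
  classical
  constructor
  · rintro ⟨f, hf, hfib⟩
    have hfin : ∀ y, (f ⁻¹' {y}).Finite := fun y => by
      refine finite_of_ncard_ne_zero ?_
      rw [hfib]
      omega
    -- the new vertices of `Y`
    have hT : ∀ e, {t : ℝ | t ∈ Ioo (0 : ℝ) 1 ∧ S.edge e t ∈ f '' range R.vert}.Finite := by
      intro e
      refine Set.Finite.of_finite_image (f := S.edge e) ?_ ?_
      · refine ((finite_range R.vert).image f).subset ?_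
        rintro _ ⟨t, ht, rfl⟩
        exact ht.2
      · intro s hs t ht hst
        exact (S.edge_inj _ _ _ _ hs.1 ht.1 hst).2
    set T : E' → Finset ℝ := fun e => (hT e).toFinset with hTdef
    have hTmem : ∀ e t, t ∈ T e ↔ t ∈ Ioo (0 : ℝ) 1 ∧ ∃ v, f (R.vert v) = S.edge e t := by
      intro e t
      simp only [hTdef, Set.Finite.mem_toFinset, mem_ofPred_eq, mem_image, mem_range,
        exists_exists_eq_and]
    set S' : E' → Finset ℝ := fun e => insert (1 / 2) (T e) with hS'def
    have hS' : ∀ e, ∀ s ∈ S' e, s ∈ Ioo (0 : ℝ) 1 := by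
      intro e s hs
      rw [hS'def, Finset.mem_insert] at hs
      rcases hs with rfl | hs
      · norm_num
      · exact ((hTmem e s).1 hs).1
    have hY0 : (range (S.sub (pos_posOf hS')).vert).Finite := finite_range _
    have hX0 : (f ⁻¹' range (S.sub (pos_posOf hS')).vert).Finite :=
      hY0.preimage' (fun y _ => hfin y)
    have hU : ∀ e, {s : ℝ | s ∈ Ioo (0 : ℝ) 1 ∧
        f (R.edge e s) ∈ range (S.sub (pos_posOf hS')).vert}.Finite := by
      intro e
      refine Set.Finite.of_finite_image (f := R.edge e) ?_ ?_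
      · refine hX0.subset ?_
        rintro _ ⟨t, ht, rfl⟩
        exact ht.2
      · intro s hs t ht hst
        exact (R.edge_inj _ _ _ _ hs.1 ht.1 hst).2
    set U : E → Finset ℝ := fun e => (hU e).toFinset with hUdef
    have hUmem : ∀ e s, s ∈ U e ↔ s ∈ Ioo (0 : ℝ) 1 ∧
        f (R.edge e s) ∈ range (S.sub (pos_posOf hS')).vert := by
      intro e s
      simp only [hUdef, Set.Finite.mem_toFinset, mem_ofPred_eq]
    have hU' : ∀ e, ∀ s ∈ U e, s ∈ Ioo (0 : ℝ) 1 := fun e s hs => ((hUmem e s).1 hs).1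
    have hn1 : ∀ e, 1 ≤ (S' e).card := by
      intro e
      rw [Nat.one_le_iff_ne_zero, Finset.card_ne_zero]
      exact ⟨1 / 2, Finset.mem_insert_self _ _⟩
    refine ⟨fun e => (U e).card, fun e => (S' e).card, hn1, ?_, ?_⟩
    · have h1 : ∑ e, (S' e).card ≤ ∑ e, ((T e).card + 1) :=
        Finset.sum_le_sum fun e _ => Finset.card_insert_le _ _
      have h2 : ∑ e, (T e).card ≤ Fintype.card V := by
        have h3 : ∀ q : (Σ e, T e), ∃ v, f (R.vert v) = S.edge q.1 q.2.1 := fun q =>
          ((hTmem q.1 q.2.1).1 q.2.2).2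
        choose c hc using h3
        have h4 : Function.Injective c := by
          rintro ⟨e, t, ht⟩ ⟨e', t', ht'⟩ h
          have h5 := hc ⟨e, t, ht⟩
          have h6 := hc ⟨e', t', ht'⟩
          rw [h, h6] at h5
          simp only at h5
          obtain ⟨rfl, rfl⟩ := S.edge_inj _ _ _ _ ((hTmem _ _).1 ht').1 ((hTmem _ _).1 ht).1 h5
          rfl
        have h7 := Fintype.card_le_of_injective c h4
        rw [Fintype.card_sigma] at h7
        simpa using h7
      rw [Finset.sum_add_distrib] at h1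
      simp only [Finset.sum_const, Finset.card_univ, smul_eq_mul, mul_one] at h1
      change ∑ e, (S' e).card ≤ _
      omega
    · refine nec k hk (R.sub (pos_posOf hU')) (S.sub (pos_posOf hS')) (sub_simple hH hn1) hf
        hfib ?_
      intro x
      rw [sub_vert_iff R hU']
      constructor
      · rintro (⟨v, rfl⟩ | ⟨e, s, hs, rfl⟩)
        · rw [sub_vert_iff S hS']
          rcases S.cover (f (R.vert v)) with h | ⟨e, t, ht, hte⟩
          · exact Or.inl h
          · refine Or.inr ⟨e, t, ?_, hte⟩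
            rw [hS'def, Finset.mem_insert]
            exact Or.inr ((hTmem e t).2 ⟨ht, v, hte.symm⟩)
        · exact ((hUmem e s).1 hs).2
      · intro h
        rcases R.cover x with hx | ⟨e, s, hs, rfl⟩
        · exact Or.inl hx
        · exact Or.inr ⟨e, s, (hUmem e s).2 ⟨hs, h⟩, rfl⟩
  · rintro ⟨m, n, hn, _, φ, hA⟩
    exact suff k hk (R.sub (pos_equi m)) (S.sub (pos_equi n)) (sub_simple hH hn) hA

end Pool.Agent.W620.KT
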