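import Pool.Agent.W620.KT.Fibre
import Pool.Agent.W620.KT.Local

open Set Topology Filter

namespace Pool.Agent.W620.KT

universe u v w x y z

variable {V : Type u} {E : Type v} {V' : Type x} {E' : Type y}
variable {G : MGraph V E} {H : MGraph V' E'} {X : Type w} {Y : Type z} [TopologicalSpace X]
  [TopologicalSpace Y]

/-- an open edge goes into one open edge, and the coordinate is continuous -/
theorem edge_coord [T2Space Y] [Finite V'] [Finite E'] (R : GSpace G X)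
    (S : GSpace H Y) (hH : ∀ η, H.fst η ≠ H.snd η) {f : X → Y} (hf : Continuous f)
    (hv : ∀ x, (∃ v, R.vert v = x) ↔ ∃ w, S.vert w = f x) (ε : E) :
    ∃ (η : E') (g : ℝ → ℝ), ContinuousOn g (Icc 0 1) ∧
      (∀ s ∈ Icc (0 : ℝ) 1, g s ∈ Icc (0 : ℝ) 1 ∧ f (R.edge ε s) = S.edge η (g s)) ∧
      (∀ s ∈ Ioo (0 : ℝ) 1, g s ∈ Ioo (0 : ℝ) 1) := by
  classical
  have hnv : ∀ s ∈ Ioo (0 : ℝ) 1, ¬ ∃ w, S.vert w = f (R.edge ε s) := by
    intro s hs h
    obtain ⟨v, hv'⟩ := (hv _).2 h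
    exact R.edge_ne ε s v hs hv'.symm
  have hin : ∀ s ∈ Ioo (0 : ℝ) 1, ∃ η, ∃ t ∈ Ioo (0 : ℝ) 1, S.edge η t = f (R.edge ε s) := by
    intro s hs
    rcases S.cover (f (R.edge ε s)) with h | h
    · exact absurd h (hnv s hs)
    · exact h
  obtain ⟨η, t0, ht0, hη⟩ := hin (1 / 2) ⟨by norm_num, by norm_num⟩
  have hF : ContinuousOn (fun s => f (R.edge ε s)) (Icc 0 1) := hf.comp_continuousOn (R.cont ε)
  have hpre : IsPreconnected ((fun s => f (R.edge ε s)) '' Ioo 0 1) :=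
    isPreconnected_Ioo.image _ (hF.mono Ioo_subset_Icc_self)
  have hsub : (fun s => f (R.edge ε s)) '' Ioo 0 1 ⊆ S.edge η '' Ioo 0 1 := by
    refine IsPreconnected.subset_left_of_subset_union (S.isOpen_edge η)
      (isOpen_iUnion fun (η' : {η' // η' ≠ η}) => S.isOpen_edge η'.1) ?_ ?_ ?_ hpre
    · rw [Set.disjoint_iff]
      rintro y ⟨⟨t, ht, rfl⟩, hy⟩
      rw [mem_iUnion] at hy
      obtain ⟨⟨η', hη'⟩, t', ht', htt⟩ := hy
      exact hη' (S.edge_inj _ _ _ _ ht' ht htt).1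
    · rintro _ ⟨s, hs, rfl⟩
      obtain ⟨η', t, ht, hηt⟩ := hin s hs
      by_cases h : η' = η
      · subst h
        exact Or.inl ⟨t, ht, hηt⟩
      · exact Or.inr (mem_iUnion.2 ⟨⟨η', h⟩, t, ht, hηt⟩)
    · exact ⟨_, ⟨1 / 2, ⟨by norm_num, by norm_num⟩, rfl⟩, t0, ht0, hη⟩
  have hcl : IsClosed (S.edge η '' Icc 0 1) :=
    (isCompact_Icc.image_of_continuousOn (S.cont η)).isClosed
  have hcov : ∀ s ∈ Icc (0 : ℝ) 1, ∃ t ∈ Icc (0 : ℝ) 1, S.edge η t = f (R.edge ε s) := by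
    intro s hs
    have h1 : (fun s => f (R.edge ε s)) '' closure (Ioo 0 1) ⊆
        closure ((fun s => f (R.edge ε s)) '' Ioo 0 1) := by
      apply ContinuousOn.image_closure
      rw [closure_Ioo (by norm_num)]
      exact hF
    rw [closure_Ioo (by norm_num)] at h1
    have h2 : closure ((fun s => f (R.edge ε s)) '' Ioo 0 1) ⊆ S.edge η '' Icc 0 1 :=
      closure_minimal (hsub.trans (image_mono Ioo_subset_Icc_self)) hcl
    obtain ⟨t, ht, h⟩ := h2 (h1 ⟨s, hs, rfl⟩)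
    exact ⟨t, ht, h⟩
  choose! g hg hgf using hcov
  refine ⟨η, g, ?_, fun s hs => ⟨hg s hs, (hgf s hs).symm⟩, ?_⟩
  · rw [continuousOn_iff_isClosed]
    intro C hC
    have hK : IsClosed (S.edge η '' (Icc 0 1 ∩ C)) :=
      ((isCompact_Icc.inter_right hC).image_of_continuousOn
        ((S.cont η).mono inter_subset_left)).isClosed
    obtain ⟨U, hU, hUeq⟩ := (continuousOn_iff_isClosed.1 hF) _ hK
    refine ⟨U, hU, ?_⟩
    rw [← hUeq]
    ext s
    simp only [mem_inter_iff, mem_preimage, mem_image]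
    constructor
    · rintro ⟨h1, h2⟩
      exact ⟨⟨g s, ⟨hg s h2, h1⟩, hgf s h2⟩, h2⟩
    · rintro ⟨⟨t, ⟨ht, htC⟩, hts⟩, h2⟩
      have : t = g s := S.edge_injOn (hH η) ht (hg s h2) (hts.trans (hgf s h2).symm)
      rw [← this]
      exact ⟨htC, h2⟩
  · intro s hs
    have hs' := Ioo_subset_Icc_self hs
    rcases Icc_cases (hg s hs') with h | h | h
    · exfalso
      have := hgf s hs'
      rw [h, S.edge_zero] at this
      exact hnv s hs ⟨_, this⟩
    · exfalso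
      have := hgf s hs'
      rw [h, S.edge_one] at this
      exact hnv s hs ⟨_, this⟩
    · exact h

/-- necessity for maps compatible with the vertices -/
theorem necessity [Fintype V] [Fintype E] [DecidableEq V'] [DecidableEq E'] [Finite V']
    [Finite E'] [T2Space Y] (k : ℕ) (hk : 1 ≤ k) (R : GSpace G X)
    (S : GSpace H Y) (hH : ∀ η, H.fst η ≠ H.snd η) {f : X → Y} (hf : Continuous f)
    (hfib : ∀ y, (f ⁻¹' {y}).ncard = k)
    (hv : ∀ x, (∃ v, R.vert v = x) ↔ ∃ w, S.vert w = f x) :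
    ∃ φ ψ a b, PsiCond k G H φ ψ a b := by
  classical
  have h1 : ∀ v, ∃ w, S.vert w = f (R.vert v) := fun v => (hv _).1 ⟨v, rfl⟩
  choose φ hφ using h1
  choose ψ g hgc hgf hgm using edge_coord R S hH hf hv
  have hend0 : ∀ ε, ∃ c, g ε 0 = endv c := by
    intro ε
    obtain ⟨h1, h2⟩ := hgf ε 0 (left_mem_Icc.2 zero_le_one)
    rw [R.edge_zero, ← hφ] at h2
    rcases Icc_cases h1 with h | h | h
    · exact ⟨false, by rw [h]; rfl⟩
    · exact ⟨true, by rw [h]; rfl⟩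
    · exact absurd h2.symm (S.edge_ne _ _ _ h)
  have hend1 : ∀ ε, ∃ c, g ε 1 = endv c := by
    intro ε
    obtain ⟨h1, h2⟩ := hgf ε 1 (right_mem_Icc.2 zero_le_one)
    rw [R.edge_one, ← hφ] at h2
    rcases Icc_cases h1 with h | h | h
    · exact ⟨false, by rw [h]; rfl⟩
    · exact ⟨true, by rw [h]; rfl⟩
    · exact absurd h2.symm (S.edge_ne _ _ _ h)
  choose a ha using hend0
  choose b hb using hend1
  refine ⟨φ, ψ, a, b, ?_, ?_, ?_, ?_⟩
  · intro w
    have h2 : f ⁻¹' {S.vert w} = R.vert '' {v | φ v = w} := by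
      ext x
      simp only [mem_preimage, mem_singleton_iff, mem_image, mem_ofPred_eq]
      constructor
      · intro hx
        obtain ⟨v, rfl⟩ := (hv x).2 ⟨w, hx.symm⟩
        refine ⟨v, ?_, rfl⟩
        exact S.vert_inj ((hφ v).trans hx)
      · rintro ⟨v, hv, rfl⟩
        rw [← hφ v, hv]
    have h3 := hfib (S.vert w)
    rw [h2, ncard_image_of_injective _ R.vert_inj] at h3
    rw [← h3, ← ncard_coe_finset]
    congr 1
    ext v
    simp
  · intro ε
    obtain ⟨_, h2⟩ := hgf ε 0 (left_mem_Icc.2 zero_le_one)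
    rw [R.edge_zero, ← hφ, ha, S.edge_endv] at h2
    exact S.vert_inj h2
  · intro ε
    obtain ⟨_, h2⟩ := hgf ε 1 (right_mem_Icc.2 zero_le_one)
    rw [R.edge_one, ← hφ, hb, S.edge_endv] at h2
    exact S.vert_inj h2
  · intro η c
    have hcount : ∀ t ∈ Ioo (0 : ℝ) 1,
        (∀ j : {ε // ψ ε = η}, {s : ℝ | s ∈ Ioo (0 : ℝ) 1 ∧ g j.1 s = t}.Finite) ∧
        ∑ j : {ε // ψ ε = η}, {s : ℝ | s ∈ Ioo (0 : ℝ) 1 ∧ g j.1 s = t}.ncard = k := by
      intro t ht
      obtain ⟨e⟩ := fibre_bij R S f ψ g (fun ε s hs => (hgf ε s (Ioo_subset_Icc_self hs)).2)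
        (fun ε s hs => hgm ε s hs) (fun v => ⟨φ v, (hφ v).symm⟩) η ht
      have hfin : (f ⁻¹' {S.edge η t}).Finite := by
        refine finite_of_ncard_ne_zero ?_
        rw [hfib]
        omega
      have hfin' : Finite (f ⁻¹' {S.edge η t} : Set X) := hfin
      have hfs : Finite (Σ ε : {ε // ψ ε = η}, {s : ℝ | s ∈ Ioo (0 : ℝ) 1 ∧ g ε.1 s = t}) :=
        Finite.of_equiv _ e.symm
      have hfj : ∀ j : {ε // ψ ε = η}, Finite {s : ℝ | s ∈ Ioo (0 : ℝ) 1 ∧ g j.1 s = t} := by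
        intro j
        exact Finite.of_injective (fun s => (⟨j, s⟩ : Σ ε : {ε // ψ ε = η},
          {s : ℝ | s ∈ Ioo (0 : ℝ) 1 ∧ g ε.1 s = t})) (fun s s' h => by simpa using h)
      refine ⟨fun j => hfj j, ?_⟩
      have h4 := Nat.card_congr e
      rw [Nat.card_sigma] at h4
      have h5 := hfib (S.edge η t)
      rw [← Nat.card_coe_set_eq] at h5
      rw [h5] at h4
      rw [← h4]
      exact Finset.sum_congr rfl fun j _ => (Nat.card_coe_set_eq _).symm
    have := local_conditions (fun j : {ε // ψ ε = η} => g j.1) (fun j => a j.1)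
      (fun j => b j.1) k hk (fun j => hgc j.1) (fun j => ha j.1) (fun j => hb j.1)
      (fun j => hgm j.1) hcount c
    rw [card_sub, card_sub] at this
    exact this

end Pool.Agent.W620.KT
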