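import Mathlib

open Set Topology Filter

namespace Pool.Agent.W620.KT

/-- no zero: same sign -/
lemma same_sign {g : ℝ → ℝ} {a b t : ℝ} (hab : a ≤ b) (hg : ContinuousOn g (Icc a b))
    (h : ∀ s ∈ Icc a b, g s ≠ t) : 0 < (g a - t) * (g b - t) := by
  have ha := h a ⟨le_refl _, hab⟩
  have hb := h b ⟨hab, le_refl _⟩
  rcases lt_or_gt_of_ne ha with h1 | h1 <;> rcases lt_or_gt_of_ne hb with h2 | h2
  · exact mul_pos_of_neg_of_neg (by linarith) (by linarith)
  · obtain ⟨s, hs, hs'⟩ := intermediate_value_Icc hab hg ⟨h1.le, h2.le⟩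
    exact absurd hs' (h s hs)
  · obtain ⟨s, hs, hs'⟩ := intermediate_value_Icc' hab hg ⟨h2.le, h1.le⟩
    exact absurd hs' (h s hs)
  · exact mul_pos (by linarith) (by linarith)

theorem parity_aux (g : ℝ → ℝ) (a t : ℝ) (ha : g a ≠ t) : ∀ (n : ℕ) (b : ℝ), a < b →
    ContinuousOn g (Icc a b) → g b ≠ t → {s | s ∈ Ioo a b ∧ g s = t}.Finite →
    {s | s ∈ Ioo a b ∧ g s = t}.ncard = n →
    (∀ s ∈ Ioo a b, g s = t → ¬ IsLocalMin g s ∧ ¬ IsLocalMax g s) →
    (Even n ↔ 0 < (g a - t) * (g b - t)) := by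
  intro n
  induction n with
  | zero =>
    intro b hab hg hb hfin hc _
    have h0 : {s | s ∈ Ioo a b ∧ g s = t} = ∅ := (ncard_eq_zero hfin).1 hc
    have h : ∀ s ∈ Icc a b, g s ≠ t := by
      intro s hs hst
      rcases eq_or_lt_of_le hs.1 with h1 | h1
      · subst h1
        exact ha hst
      rcases eq_or_lt_of_le hs.2 with h2 | h2
      · subst h2
        exact hb hst
      have : s ∈ {s | s ∈ Ioo a b ∧ g s = t} := ⟨⟨h1, h2⟩, hst⟩
      rw [h0] at this
      exact this
    have := same_sign hab.le hg h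
    simp [this]
  | succ n ih =>
    intro b hab hg hb hfin hc hext
    set Z := {s | s ∈ Ioo a b ∧ g s = t} with hZ
    have hne : Z.Nonempty := by
      rw [← ncard_pos hfin, hc]
      omega
    obtain ⟨z, hz, hzmax⟩ := hfin.exists_maximal hne
    have hzmax' : ∀ s ∈ Z, s ≤ z := by
      intro s hs
      rcases le_total s z with h | h
      · exact h
      · exact hzmax hs h
    obtain ⟨⟨haz, hzb⟩, hgz⟩ := hz
    -- the point c
    obtain ⟨c, hac, hcz, hcZ⟩ : ∃ c, a < c ∧ c < z ∧ ∀ s ∈ Z, s ≠ z → s < c := by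
      have hfin' : (insert a (Z \ {z})).Finite := (hfin.subset sdiff_subset).insert a
      obtain ⟨m, hm, hmmax⟩ := hfin'.exists_maximal ⟨a, mem_insert _ _⟩
      have hm' : ∀ s ∈ insert a (Z \ {z}), s ≤ m := by
        intro s hs
        rcases le_total s m with h | h
        · exact h
        · exact hmmax hs h
      have hmz : m < z := by
        rcases hm with rfl | hm
        · exact haz
        · exact lt_of_le_of_ne (hzmax' m hm.1) hm.2
      have ham : a ≤ m := hm' a (mem_insert _ _)
      refine ⟨(m + z) / 2, by linarith, by linarith, ?_⟩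
      intro s hs hsz
      have := hm' s (mem_insert_of_mem _ ⟨hs, hsz⟩)
      linarith
    have hcb : c < b := hcz.trans hzb
    have hgc : g c ≠ t := by
      intro h
      exact lt_irrefl c (hcZ c ⟨⟨hac, hcb⟩, h⟩ hcz.ne)
    have hZc : {s | s ∈ Ioo a c ∧ g s = t} = Z \ {z} := by
      ext s
      simp only [mem_ofPred_eq, Set.mem_sdiff, mem_singleton_iff, hZ]
      constructor
      · rintro ⟨hs, hst⟩
        exact ⟨⟨⟨hs.1, hs.2.trans hcb⟩, hst⟩, (hs.2.trans hcz).ne⟩
      · rintro ⟨⟨hs, hst⟩, hsz⟩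
        exact ⟨⟨hs.1, hcZ s ⟨hs, hst⟩ hsz⟩, hst⟩
    have hcard : {s | s ∈ Ioo a c ∧ g s = t}.ncard = n := by
      rw [hZc, ncard_sdiff_singleton_of_mem (show z ∈ Z from ⟨⟨haz, hzb⟩, hgz⟩), hc]
      omega
    have hIH := ih c hac (hg.mono (Icc_subset_Icc_right hcb.le)) hgc
      (by rw [hZc]; exact hfin.subset sdiff_subset) hcard
      (fun s hs hst => hext s ⟨hs.1, hs.2.trans hcb⟩ hst)
    -- signs
    have hleft : ∀ s ∈ Ico c z, 0 < (g c - t) * (g s - t) := by
      intro s hs
      refine same_sign hs.1 (hg.mono (Icc_subset_Icc hac.le (hs.2.trans hzb).le)) ?_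
      intro u hu hut
      have hu1 : u < z := lt_of_le_of_lt hu.2 hs.2
      have := hcZ u ⟨⟨lt_of_lt_of_le hac hu.1, hu1.trans hzb⟩, hut⟩ hu1.ne
      exact absurd hu.1 (not_le.2 this)
    have hright : ∀ s ∈ Ioc z b, 0 < (g s - t) * (g b - t) := by
      intro s hs
      refine same_sign hs.2 (hg.mono (Icc_subset_Icc_left (haz.trans hs.1).le)) ?_
      intro u hu hut
      have hu1 : z < u := lt_of_lt_of_le hs.1 hu.1
      rcases eq_or_lt_of_le hu.2 with h | h
      · subst h
        exact hb hut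
      · exact absurd (hzmax' u ⟨⟨haz.trans hu1, h⟩, hut⟩) (not_le.2 hu1)
    have hneg : (g c - t) * (g b - t) < 0 := by
      by_contra hcon
      have hpos : 0 < (g c - t) * (g b - t) := by
        refine lt_of_le_of_ne (not_lt.1 hcon) (Ne.symm ?_)
        exact mul_ne_zero (sub_ne_zero.2 hgc) (sub_ne_zero.2 hb)
      obtain ⟨hmin, hmax⟩ := hext z ⟨haz, hzb⟩ hgz
      have hnh : Ioo c b ∈ 𝓝 z := Ioo_mem_nhds hcz hzb
      rcases lt_or_gt_of_ne hgc with h1 | h1
      · apply hmax
        have hb' : g b - t < 0 := by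
          by_contra h3
          have := mul_nonpos_of_nonpos_of_nonneg (show g c - t ≤ 0 by linarith) (not_lt.1 h3)
          linarith
        filter_upwards [hnh] with s hs
        rw [hgz]
        rcases lt_trichotomy s z with h2 | h2 | h2
        · have := hleft s ⟨hs.1.le, h2⟩
          by_contra h3
          have := mul_nonpos_of_nonpos_of_nonneg (show g c - t ≤ 0 by linarith)
            (show 0 ≤ g s - t by linarith [not_le.1 h3])
          linarith
        · rw [h2, hgz]
        · have := hright s ⟨h2, hs.2.le⟩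
          by_contra h3
          have := mul_nonpos_of_nonneg_of_nonpos (show 0 ≤ g s - t by linarith [not_le.1 h3])
            hb'.le
          linarith
      · apply hmin
        have hb' : 0 < g b - t := by
          by_contra h3
          have := mul_nonpos_of_nonneg_of_nonpos (show 0 ≤ g c - t by linarith) (not_lt.1 h3)
          linarith
        filter_upwards [hnh] with s hs
        rw [hgz]
        rcases lt_trichotomy s z with h2 | h2 | h2
        · have := hleft s ⟨hs.1.le, h2⟩
          by_contra h3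
          have := mul_nonpos_of_nonneg_of_nonpos (show 0 ≤ g c - t by linarith)
            (show g s - t ≤ 0 by linarith [not_le.1 h3])
          linarith
        · rw [h2, hgz]
        · have := hright s ⟨h2, hs.2.le⟩
          by_contra h3
          have := mul_nonpos_of_nonpos_of_nonneg (show g s - t ≤ 0 by linarith [not_le.1 h3])
            hb'.le
          linarith
    have hc2 : 0 < (g c - t) ^ 2 := by
      have := sub_ne_zero.2 hgc
      positivity
    rw [Nat.even_add_one, hIH, not_lt]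
    constructor
    · intro h
      have hlt : (g a - t) * (g c - t) < 0 :=
        lt_of_le_of_ne h (mul_ne_zero (sub_ne_zero.2 ha) (sub_ne_zero.2 hgc))
      have := mul_pos_of_neg_of_neg hlt hneg
      have h3 : (g a - t) * (g c - t) * ((g c - t) * (g b - t)) =
          (g c - t) ^ 2 * ((g a - t) * (g b - t)) := by ring
      rw [h3] at this
      exact (mul_pos_iff_of_pos_left hc2).1 this
    · intro h
      by_contra hcon
      have := mul_neg_of_pos_of_neg (not_le.1 hcon) hneg
      have h3 : (g a - t) * (g c - t) * ((g c - t) * (g b - t)) =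
          (g c - t) ^ 2 * ((g a - t) * (g b - t)) := by ring
      rw [h3] at this
      have := mul_pos hc2 h
      linarith

/-- the values at local extrema form a countable set -/
lemma countable_localMax (g : ℝ → ℝ) : {t : ℝ | ∃ s, g s = t ∧ IsLocalMax g s}.Countable := by
  have h : {t : ℝ | ∃ s, g s = t ∧ IsLocalMax g s} ⊆
      range (fun p : ℚ × ℚ => sSup (g '' Ioo (p.1 : ℝ) (p.2 : ℝ))) := by
    rintro t ⟨s, rfl, hs⟩
    rw [IsLocalMax, IsMaxFilter, Metric.eventually_nhds_iff] at hs
    obtain ⟨ε, hε, hs⟩ := hs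
    obtain ⟨p, hp1, hp2⟩ := exists_rat_btwn (show s - ε < s by linarith)
    obtain ⟨q, hq1, hq2⟩ := exists_rat_btwn (show s < s + ε by linarith)
    refine ⟨(p, q), ?_⟩
    have hmax : IsGreatest (g '' Ioo (p : ℝ) (q : ℝ)) (g s) := by
      refine ⟨⟨s, ⟨hp2, hq1⟩, rfl⟩, ?_⟩
      rintro _ ⟨u, hu, rfl⟩
      apply hs
      rw [Real.dist_eq, abs_lt]
      constructor <;> linarith [hu.1, hu.2]
    exact hmax.csSup_eq
  exact (countable_range _).mono h

lemma countable_localMin (g : ℝ → ℝ) : {t : ℝ | ∃ s, g s = t ∧ IsLocalMin g s}.Countable := by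
  have h : {t : ℝ | ∃ s, g s = t ∧ IsLocalMin g s} ⊆
      range (fun p : ℚ × ℚ => sInf (g '' Ioo (p.1 : ℝ) (p.2 : ℝ))) := by
    rintro t ⟨s, rfl, hs⟩
    rw [IsLocalMin, IsMinFilter, Metric.eventually_nhds_iff] at hs
    obtain ⟨ε, hε, hs⟩ := hs
    obtain ⟨p, hp1, hp2⟩ := exists_rat_btwn (show s - ε < s by linarith)
    obtain ⟨q, hq1, hq2⟩ := exists_rat_btwn (show s < s + ε by linarith)
    refine ⟨(p, q), ?_⟩
    have hmin : IsLeast (g '' Ioo (p : ℝ) (q : ℝ)) (g s) := by
      refine ⟨⟨s, ⟨hp2, hq1⟩, rfl⟩, ?_⟩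
      rintro _ ⟨u, hu, rfl⟩
      apply hs
      rw [Real.dist_eq, abs_lt]
      constructor <;> linarith [hu.1, hu.2]
    exact hmin.csInf_eq
  exact (countable_range _).mono h

end Pool.Agent.W620.KT
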