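import Mathlib

open Set Topology Filter

namespace Pool.Agent.W620.KT

/-- the walk: at time `j`, with `2d+1` steps between two consecutive levels -/
def wk (d j : ℕ) : ℕ := j / (2 * d + 1) + (j % (2 * d + 1)) % 2

/-- the direction of the `j`-th step -/
def sg (d j : ℕ) : ℤ := if (j % (2 * d + 1)) % 2 = 0 then 1 else -1

lemma wk_block (d a r : ℕ) (hr : r < 2 * d + 1) : wk d (a * (2 * d + 1) + r) = a + r % 2 := by
  unfold wk
  have h1 : (a * (2 * d + 1) + r) / (2 * d + 1) = a := by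
    rw [Nat.add_comm, Nat.add_mul_div_right _ _ (by omega), Nat.div_eq_of_lt hr, zero_add]
  have h2 : (a * (2 * d + 1) + r) % (2 * d + 1) = r := by
    rw [Nat.add_comm, Nat.add_mul_mod_self_right, Nat.mod_eq_of_lt hr]
  rw [h1, h2]

lemma sg_block (d a r : ℕ) (hr : r < 2 * d + 1) :
    sg d (a * (2 * d + 1) + r) = if r % 2 = 0 then 1 else -1 := by
  unfold sg
  have h2 : (a * (2 * d + 1) + r) % (2 * d + 1) = r := by
    rw [Nat.add_comm, Nat.add_mul_mod_self_right, Nat.mod_eq_of_lt hr]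
  rw [h2]

lemma exists_block (d j : ℕ) : ∃ a r, r < 2 * d + 1 ∧ j = a * (2 * d + 1) + r :=
  ⟨j / (2 * d + 1), j % (2 * d + 1), Nat.mod_lt _ (by omega), (Nat.div_add_mod' _ _).symm⟩

lemma block_unique (d a r a' r' : ℕ) (hr : r < 2 * d + 1) (hr' : r' < 2 * d + 1)
    (h : a * (2 * d + 1) + r = a' * (2 * d + 1) + r') : a = a' ∧ r = r' := by
  have h1 : (a * (2 * d + 1) + r) / (2 * d + 1) = a := by
    rw [Nat.add_comm, Nat.add_mul_div_right _ _ (by omega), Nat.div_eq_of_lt hr, zero_add]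
  have h2 : (a' * (2 * d + 1) + r') / (2 * d + 1) = a' := by
    rw [Nat.add_comm, Nat.add_mul_div_right _ _ (by omega), Nat.div_eq_of_lt hr', zero_add]
  have h3 : a = a' := by rw [← h1, h, h2]
  subst h3
  exact ⟨rfl, by omega⟩

lemma wk_succ (d j : ℕ) : (wk d (j + 1) : ℤ) = wk d j + sg d j := by
  obtain ⟨a, r, hr, rfl⟩ := exists_block d j
  rw [wk_block d a r hr, sg_block d a r hr]
  by_cases h : r + 1 < 2 * d + 1
  · rw [add_assoc, wk_block d a (r + 1) h]
    split_ifs <;> push_cast <;> omega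
  · have h' : r = 2 * d := by omega
    subst h'
    have : a * (2 * d + 1) + 2 * d + 1 = (a + 1) * (2 * d + 1) + 0 := by ring
    rw [this, wk_block d (a + 1) 0 (by omega)]
    have : (2 * d) % 2 = 0 := by omega
    rw [if_pos this, this]
    push_cast
    omega

/-- the piecewise linear path -/
noncomputable def path (d : ℕ) (x : ℝ) : ℝ := (wk d ⌊x⌋₊ : ℝ) + (x - ⌊x⌋₊) * sg d ⌊x⌋₊

lemma path_eq (d j : ℕ) {x : ℝ} (h0 : (j : ℝ) ≤ x) (h1 : x ≤ j + 1) :
    path d x = (wk d j : ℝ) + (x - j) * sg d j := by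
  rcases eq_or_lt_of_le h1 with h | h
  · have hf : ⌊x⌋₊ = j + 1 := by
      rw [h]
      have : ((j : ℝ) + 1) = ((j + 1 : ℕ) : ℝ) := by push_cast; ring
      rw [this, Nat.floor_natCast]
    unfold path
    rw [hf]
    have h2 := wk_succ d j
    have h3 : (wk d (j + 1) : ℝ) = wk d j + sg d j := by exact_mod_cast h2
    rw [h3, h]
    push_cast
    ring
  · have hf : ⌊x⌋₊ = j := by
      rw [Nat.floor_eq_iff (by linarith [Nat.cast_nonneg (α := ℝ) j])]
      exact ⟨h0, h⟩
    unfold path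
    rw [hf]

lemma path_contOn_seg (d j : ℕ) : ContinuousOn (path d) (Icc (j : ℝ) (j + 1)) := by
  refine ContinuousOn.congr (f := fun x => (wk d j : ℝ) + (x - j) * sg d j) ?_ ?_
  · fun_prop
  · intro x hx
    exact path_eq d j hx.1 hx.2

lemma path_contOn_nat (d M : ℕ) : ContinuousOn (path d) (Icc 0 (M : ℝ)) := by
  induction M with
  | zero =>
    simp only [Nat.cast_zero, Icc_self]
    exact continuousOn_singleton _ _
  | succ M ih =>
    have h : Icc (0 : ℝ) ((M + 1 : ℕ) : ℝ) = Icc 0 (M : ℝ) ∪ Icc (M : ℝ) (M + 1) := by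
      rw [Icc_union_Icc_eq_Icc (Nat.cast_nonneg _) (by linarith)]
      push_cast
      rfl
    rw [h]
    exact ih.union_of_isClosed (path_contOn_seg d M) isClosed_Icc isClosed_Icc

lemma path_contOn (d : ℕ) : ContinuousOn (path d) (Ici 0) := by
  intro x hx
  obtain ⟨M, hM⟩ := exists_nat_gt x
  have h1 : ContinuousWithinAt (path d) (Icc 0 (M : ℝ)) x :=
    path_contOn_nat d M x ⟨hx, hM.le⟩
  refine h1.mono_of_mem_nhdsWithin ?_
  rw [mem_nhdsWithin]
  exact ⟨Iio (M : ℝ), isOpen_Iio, hM, fun y hy => ⟨hy.2, hy.1.le⟩⟩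

lemma path_nonneg (d : ℕ) {x : ℝ} (hx : 0 ≤ x) : 0 ≤ path d x := by
  have h0 := Nat.floor_le hx
  have h1 := (Nat.lt_floor_add_one x).le
  have h2 : (wk d (⌊x⌋₊ + 1) : ℝ) = wk d ⌊x⌋₊ + sg d ⌊x⌋₊ := by exact_mod_cast wk_succ d ⌊x⌋₊
  have h3 : (0 : ℝ) ≤ wk d (⌊x⌋₊ + 1) := Nat.cast_nonneg _
  have h4 : (0 : ℝ) ≤ wk d ⌊x⌋₊ := Nat.cast_nonneg _
  unfold path
  nlinarith

lemma path_ge (d : ℕ) {x : ℝ} (hx : 0 ≤ x) : x / (2 * d + 1) - 2 ≤ path d x := by
  have h0 := Nat.floor_le hx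
  have h1 := (Nat.lt_floor_add_one x).le
  have hN : (0 : ℝ) < 2 * d + 1 := by positivity
  have h2 : (wk d (⌊x⌋₊ + 1) : ℝ) = wk d ⌊x⌋₊ + sg d ⌊x⌋₊ := by exact_mod_cast wk_succ d ⌊x⌋₊
  have key : ∀ j : ℕ, (j : ℝ) / (2 * d + 1) - 1 ≤ wk d j := by
    intro j
    have h3 : j < (j / (2 * d + 1) + 1) * (2 * d + 1) := by
      have := Nat.lt_mul_div_succ j (show 0 < 2 * d + 1 by omega)
      rw [mul_comm]
      exact this
    have h4 : (j : ℝ) < ((j / (2 * d + 1) : ℕ) + 1) * (2 * d + 1) := by exact_mod_cast h3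
    have h5 : (j : ℝ) / (2 * d + 1) < (j / (2 * d + 1) : ℕ) + 1 := by
      rw [div_lt_iff₀ hN]
      exact h4
    have h6 : ((j / (2 * d + 1) : ℕ) : ℝ) ≤ wk d j := by
      unfold wk
      push_cast
      have : (0 : ℝ) ≤ ((j % (2 * d + 1) % 2 : ℕ) : ℝ) := Nat.cast_nonneg _
      linarith
    linarith
  have k0 := key ⌊x⌋₊
  have k1 := key (⌊x⌋₊ + 1)
  push_cast at k1
  have h5 : x / (2 * d + 1) ≤ (⌊x⌋₊ + 1) / (2 * d + 1) := by gcongr
  have h6 : ((⌊x⌋₊ : ℝ) + 1) / (2 * d + 1) ≤ ⌊x⌋₊ / (2 * d + 1) + 1 := by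
    rw [add_div]
    have : (1 : ℝ) / (2 * d + 1) ≤ 1 := by
      rw [div_le_one hN]
      have : (0 : ℝ) ≤ d := Nat.cast_nonneg _
      linarith
    linarith
  unfold path
  have h7 : path d x = (1 - (x - ⌊x⌋₊)) * wk d ⌊x⌋₊ + (x - ⌊x⌋₊) * wk d (⌊x⌋₊ + 1) := by
    unfold path
    rw [h2]
    ring
  unfold path at h7
  rw [h7]
  have h8 : (1 - (x - ⌊x⌋₊)) * (x / (2 * d + 1) - 2) ≤ (1 - (x - ⌊x⌋₊)) * wk d ⌊x⌋₊ :=
    mul_le_mul_of_nonneg_left (by linarith) (by linarith)
  have h9 : (x - ⌊x⌋₊) * (x / (2 * d + 1) - 2) ≤ (x - ⌊x⌋₊) * wk d (⌊x⌋₊ + 1) :=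
    mul_le_mul_of_nonneg_left (by linarith) (by linarith)
  linarith

lemma path_tendsto (d : ℕ) : Tendsto (path d) atTop atTop := by
  have hN : (0 : ℝ) < 2 * d + 1 := by positivity
  have h1 : (fun x : ℝ => x / (2 * d + 1) - 2) ≤ᶠ[atTop] path d := by
    filter_upwards [eventually_ge_atTop 0] with x hx
    exact path_ge d hx
  have h2 : Tendsto (fun x : ℝ => x / (2 * d + 1) - 2) atTop atTop :=
    tendsto_atTop_add_const_right _ _ (tendsto_id.atTop_div_const hN)
  exact tendsto_atTop_mono' _ h1 h2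

/-- the steps meeting level `T` -/
def lev (d : ℕ) (T : ℝ) : Set ℕ := {j | 0 ≤ (T - wk d j) * sg d j ∧ (T - wk d j) * sg d j < 1}

lemma sg_cases (d j : ℕ) : ((sg d j : ℤ) : ℝ) = 1 ∨ ((sg d j : ℤ) : ℝ) = -1 := by
  unfold sg
  split_ifs
  · left; norm_num
  · right; norm_num

lemma path_preim_ncard (d : ℕ) (T : ℝ) : {x : ℝ | 0 ≤ x ∧ path d x = T}.ncard = (lev d T).ncard := by
  have h : {x : ℝ | 0 ≤ x ∧ path d x = T} =
      (fun j : ℕ => (j : ℝ) + (T - wk d j) * sg d j) '' lev d T := by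
    ext x
    simp only [mem_ofPred_eq, mem_image, lev]
    constructor
    · rintro ⟨h0, h1⟩
      have hx : x - ⌊x⌋₊ = (T - wk d ⌊x⌋₊) * sg d ⌊x⌋₊ := by
        rw [← h1]
        unfold path
        rcases sg_cases d ⌊x⌋₊ with h | h <;> rw [h] <;> ring
      refine ⟨⌊x⌋₊, ⟨?_, ?_⟩, ?_⟩
      · rw [← hx]
        linarith [Nat.floor_le h0]
      · rw [← hx]
        linarith [Nat.lt_floor_add_one x]
      · rw [← hx]
        ring
    · rintro ⟨j, ⟨h0, h1⟩, rfl⟩
      refine ⟨by positivity, ?_⟩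
      rw [path_eq d j (by linarith) (by linarith)]
      rcases sg_cases d j with h | h <;> rw [h] <;> ring
  rw [h, InjOn.ncard_image]
  intro j hj j' hj' hjj
  simp only [lev, mem_ofPred_eq] at hj hj'
  simp only at hjj
  have h1 : ⌊(j : ℝ) + (T - wk d j) * sg d j⌋₊ = j := by
    rw [Nat.floor_eq_iff (by linarith [Nat.cast_nonneg (α := ℝ) j])]
    constructor <;> linarith
  have h2 : ⌊(j' : ℝ) + (T - wk d j') * sg d j'⌋₊ = j' := by
    rw [Nat.floor_eq_iff (by linarith [Nat.cast_nonneg (α := ℝ) j'])]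
    constructor <;> linarith
  rw [← h1, hjj, h2]

lemma lev_frac (d q : ℕ) {T : ℝ} (h0 : (q : ℝ) < T) (h1 : T < q + 1) :
    lev d T = (fun r : ℕ => q * (2 * d + 1) + r) '' (Finset.range (2 * d + 1) : Set ℕ) := by
  ext j
  obtain ⟨a, r, hr, rfl⟩ := exists_block d j
  simp only [lev, mem_ofPred_eq, mem_image, Finset.coe_range, mem_Iio, wk_block d a r hr,
    sg_block d a r hr]
  have haux : ∀ b : ℕ, (b : ℝ) ≤ T → b ≤ q := by
    intro b hb
    have : (b : ℝ) < (q + 1 : ℕ) := by push_cast; linarith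
    have := Nat.cast_lt.1 this
    omega
  have haux' : ∀ b : ℕ, T ≤ (b : ℝ) + 1 → q ≤ b := by
    intro b hb
    have : (q : ℝ) < (b + 1 : ℕ) := by push_cast; linarith
    have := Nat.cast_lt.1 this
    omega
  constructor
  · rintro ⟨h2, h3⟩
    refine ⟨r, hr, ?_⟩
    rcases Nat.mod_two_eq_zero_or_one r with hr2 | hr2
    · rw [hr2] at h2 h3
      simp only [if_true] at h2 h3
      push_cast at h2 h3
      have e1 := haux a (by linarith)
      have e2 := haux' a (by linarith)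
      have : a = q := by omega
      rw [this]
    · rw [hr2] at h2 h3
      simp only [one_ne_zero, if_false] at h2 h3
      push_cast at h2 h3
      have e1 := haux a (by linarith)
      have e2 := haux' a (by linarith)
      have : a = q := by omega
      rw [this]
  · rintro ⟨r', hr', h⟩
    obtain ⟨rfl, rfl⟩ := block_unique d q r' a r hr' hr h
    rcases Nat.mod_two_eq_zero_or_one r' with hr2 | hr2
    · rw [hr2]
      simp only [if_true]
      push_cast
      constructor <;> linarith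
    · rw [hr2]
      simp only [one_ne_zero, if_false]
      push_cast
      constructor <;> linarith

lemma lev_nat (d q : ℕ) : lev d (q : ℝ) = {j | wk d j = q} := by
  ext j
  simp only [lev, mem_ofPred_eq]
  constructor
  · rintro ⟨h0, h1⟩
    rcases sg_cases d j with h | h
    · rw [h] at h0 h1
      have e1 : wk d j ≤ q := by
        have : (wk d j : ℝ) ≤ q := by linarith
        exact_mod_cast this
      have e2 : q < wk d j + 1 := by
        have : (q : ℝ) < wk d j + 1 := by linarith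
        exact_mod_cast this
      omega
    · rw [h] at h0 h1
      have e1 : q ≤ wk d j := by
        have : (q : ℝ) ≤ wk d j := by linarith
        exact_mod_cast this
      have e2 : wk d j < q + 1 := by
        have : (wk d j : ℝ) < q + 1 := by linarith
        exact_mod_cast this
      omega
  · intro h
    rw [h]
    simp

lemma lev_zero (d : ℕ) : lev d 0 = (fun i : ℕ => 2 * i) '' (Finset.range (d + 1) : Set ℕ) := by
  have h0 := lev_nat d 0
  simp only [Nat.cast_zero] at h0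
  rw [h0]
  ext j
  obtain ⟨a, r, hr, rfl⟩ := exists_block d j
  simp only [mem_ofPred_eq, wk_block d a r hr, mem_image, Finset.coe_range, mem_Iio]
  constructor
  · intro h
    have ha : a = 0 := by omega
    subst ha
    exact ⟨r / 2, by omega, by omega⟩
  · rintro ⟨i, hi, h⟩
    have h' : 0 * (2 * d + 1) + 2 * i = a * (2 * d + 1) + r := by omega
    obtain ⟨rfl, rfl⟩ := block_unique d 0 (2 * i) a r (by omega) hr h'
    omega

lemma lev_succ (d q : ℕ) : lev d ((q + 1 : ℕ) : ℝ) =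
    (fun i : ℕ => q * (2 * d + 1) + (1 + 2 * i)) '' (Finset.range (2 * d + 1) : Set ℕ) := by
  rw [lev_nat]
  ext j
  obtain ⟨a, r, hr, rfl⟩ := exists_block d j
  simp only [mem_ofPred_eq, wk_block d a r hr, mem_image, Finset.coe_range, mem_Iio]
  constructor
  · intro h
    rcases Nat.mod_two_eq_zero_or_one r with hr2 | hr2
    · have ha : a = q + 1 := by omega
      subst ha
      refine ⟨d + r / 2, by omega, ?_⟩
      have : (q + 1) * (2 * d + 1) = q * (2 * d + 1) + (2 * d + 1) := by ring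
      rw [this]
      omega
    · have ha : a = q := by omega
      subst ha
      exact ⟨r / 2, by omega, by omega⟩
  · rintro ⟨i, hi, h⟩
    by_cases h1 : 1 + 2 * i < 2 * d + 1
    · obtain ⟨rfl, rfl⟩ := block_unique d q (1 + 2 * i) a r h1 hr h
      omega
    · have h' : (q + 1) * (2 * d + 1) + (2 * i - 2 * d) = a * (2 * d + 1) + r := by
        rw [← h]
        have : (q + 1) * (2 * d + 1) = q * (2 * d + 1) + (2 * d + 1) := by ring
        rw [this]
        omega
      obtain ⟨rfl, rfl⟩ := block_unique d (q + 1) (2 * i - 2 * d) a r (by omega) hr h'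
      omega

lemma path_count_zero (d : ℕ) : {x : ℝ | 0 ≤ x ∧ path d x = 0}.ncard = d + 1 := by
  rw [path_preim_ncard, lev_zero, ncard_image_of_injective, ncard_coe_finset, Finset.card_range]
  intro a b h
  simp only at h
  omega

lemma path_count_pos (d : ℕ) {T : ℝ} (hT : 0 < T) :
    {x : ℝ | 0 ≤ x ∧ path d x = T}.ncard = 2 * d + 1 := by
  rw [path_preim_ncard]
  rcases eq_or_lt_of_le (Nat.floor_le hT.le) with h | h
  · obtain ⟨q, hq⟩ : ∃ q, ⌊T⌋₊ = q + 1 := by
      refine Nat.exists_eq_succ_of_ne_zero ?_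
      intro h0
      rw [h0] at h
      simp only [Nat.cast_zero] at h
      linarith
    rw [hq] at h
    rw [← h, lev_succ, ncard_image_of_injective, ncard_coe_finset, Finset.card_range]
    intro a b h
    simp only at h
    omega
  · rw [lev_frac d ⌊T⌋₊ h (Nat.lt_floor_add_one T), ncard_image_of_injective,
      ncard_coe_finset, Finset.card_range]
    intro a b h
    simp only at h
    omega

end Pool.Agent.W620.KT
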